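import Pool.Agent.Helper57.Arm.Main

/-!
The upper bound of the probability of the arm event from the far hypothesis.
-/

set_option autoImplicit false

namespace Arm57

open Finset CB
open TA hiding Thru armsE_of mem_visited
open Pool.Agent.Helper69.RSW (P P_mono P_congr P_nonneg P_le_one P_or_le P_true P_false P_sum
  P_compl P_restrict Dep)

/-- the far hypothesis: if all exits are far from each other, the resampled configuration is in the
event `G` of the cylinder with positive probability -/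
def FarHyp (k : ℤ) (T : Finset (ℤ × ℤ) → Finset (ℤ × ℤ) → Finset (ℤ × ℤ)) (α : ℝ) : Prop :=
  ∀ W : ℤ, ∃ (Λ : ℤ → Finset (ℤ × ℤ)) (G : ℤ → Finset (ℤ × ℤ) → Prop) (C : ℝ),
    (∀ m, 1 ≤ m → bx m W W ⊆ Λ m) ∧ (∀ m, 1 ≤ m → P (Λ m) (G m) ≤ C * (m:ℝ) ^ (-α)) ∧
    ∀ w h, 5 ≤ h → h ≤ w → w ≤ W → ∃ cc : ℝ, 0 < cc ∧ ∀ m, k + 2 ≤ m → ∀ S ⊆ Λ m, ∀ c n t,
      Arms (· ∈ S) k (bx m w h : Set (ℤ × ℤ)) c n t → ¬ SdX (2 * m * w - 1) k c n →
      ¬ NearX m k c n → cc ≤ P (Λ m) (fun S' => G m (mix (T (bx m w h) S) S S'))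

lemma exists_min_pos (f : ℕ → ℝ) (K : ℕ) (h : ∀ j < K, 0 < f j) :
    ∃ c : ℝ, 0 < c ∧ ∀ j < K, c ≤ f j := by
  induction K with
  | zero => exact ⟨1, one_pos, fun j hj => absurd hj (Nat.not_lt_zero _)⟩
  | succ K ih =>
    obtain ⟨c, h1, h2⟩ := ih (fun j hj => h j (by omega))
    refine ⟨min c (f K), lt_min h1 (h K (by omega)), fun j hj => ?_⟩
    rcases Nat.lt_or_ge j K with h3 | h3
    · exact (min_le_left _ _).trans (h2 j h3)
    · have : j = K := by omega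
      rw [this]
      exact min_le_right _ _

/-- the probability of the arm event of the square of half-side `n` -/
noncomputable def fA (k : ℤ) (n : ℕ) : ℝ :=
  P (rectF n n) (fun S => ArmEv (· ∈ S) k (rect n n))

lemma rectF_mono {W H W' H' : ℤ} (h1 : W ≤ W') (h2 : H ≤ H') : rectF W H ⊆ rectF W' H' := by
  intro x hx
  rw [← mem_coe, coe_rectF] at hx ⊢
  obtain ⟨a1, a2, a3, a4⟩ := hx
  exact ⟨by omega, by omega, by omega, by omega⟩

lemma rectF_dep (k W H : ℤ) : Dep (rectF W H) (fun S => ArmEv (· ∈ S) k (rect W H)) := by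
  have := armEv_dep k (rectF W H)
  rw [coe_rectF] at this
  exact this

lemma rect_mono {W H W' H' : ℤ} (h1 : W ≤ W') (h2 : H ≤ H') : rect W H ⊆ rect W' H' := by
  rintro x ⟨a1, a2, a3, a4⟩
  exact ⟨by omega, by omega, by omega, by omega⟩

/-- monotonicity of the arm probability -/
lemma prob_mono {k W H W' H' : ℤ} {Λ Λ' : Finset (ℤ × ℤ)} (h1 : W ≤ W') (h2 : H ≤ H')
    (hΛ : rectF W H ⊆ Λ) (hΛ' : rectF W' H' ⊆ Λ') :
    P Λ' (fun S => ArmEv (· ∈ S) k (rect W' H')) ≤ P Λ (fun S => ArmEv (· ∈ S) k (rect W H)) := by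
  rw [P_restrict hΛ' (rectF_dep k W' H'), P_restrict hΛ (rectF_dep k W H),
    ← P_restrict (rectF_mono h1 h2) (rectF_dep k W H)]
  exact P_mono (fun S _ hS => armEv_mono (rect_mono h1 h2) hS)

lemma fA_anti (k : ℤ) : Antitone (fA k) := by
  intro n n' h
  have h' : (n:ℤ) ≤ n' := by exact_mod_cast h
  exact prob_mono h' h' (Subset.refl _) (Subset.refl _)

/-- **one scale** -/
theorem scale_step {k : ℤ} {T : Finset (ℤ × ℤ) → Finset (ℤ × ℤ) → Finset (ℤ × ℤ)} (E : Expl k T)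
    (hk : 1 ≤ k) {m : ℕ} (hkm : k + 2 ≤ m) {K : ℕ} {hK w0 wK : ℤ} (ehK : hK = 5 + 3 * K)
    (ew0 : w0 = hK * (2 * K + 1)) (ewK : wK = w0 + K * (4 * k + 4)) {Λ : Finset (ℤ × ℤ)}
    (hΛ : bx m (wK + 2 * hK) (wK + 2 * hK) ⊆ Λ) {G : Finset (ℤ × ℤ) → Prop} {cc : ℝ} (hcc : 0 < cc)
    (hfar : ∀ j < K, ∀ S ⊆ Λ, ∀ c n t,
      Arms (· ∈ S) k (bx m (w0 + j * (4 * k + 4)) (5 + 3 * j) : Set (ℤ × ℤ)) c n t →
      ¬ SdX (2 * m * (w0 + j * (4 * k + 4)) - 1) k c n → ¬ NearX m k c n →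
      cc ≤ P Λ (fun S' => G (mix (T (bx m (w0 + j * (4 * k + 4)) (5 + 3 * j)) S) S S'))) :
    fA k ((2 * wK).toNat * m) ≤
      ((1 - nc ^ (4 * (8 * k + 11)).toNat) ^ K + (1 - nc ^ 8) ^ K) * fA k m + K / cc * P Λ G := by
  have hm : (1:ℤ) ≤ m := by omega
  have hKn : (0:ℤ) ≤ K := by positivity
  have hpk : 0 ≤ (K:ℤ) * (4 * k + 4) := by positivity
  have h5 : 5 ≤ hK := by omega
  have hw0 : hK ≤ w0 := by
    rw [ew0]
    nlinarith
  have hq1 : (0:ℝ) ≤ 1 - nc ^ (4 * (8 * k + 11)).toNat := by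
    have := pow_le_one₀ (n := (4 * (8 * k + 11)).toNat) nc_pos.le nc_le_one
    linarith
  have hz : (0:ℝ) ≤ 1 - nc ^ 8 := by
    have := pow_le_one₀ (n := 8) nc_pos.le nc_le_one
    linarith
  have hj4 : ∀ j : ℕ, 0 ≤ (j:ℤ) * (4 * k + 4) := fun j => by positivity
  have hj5 : ∀ j : ℕ, j ≤ K → (j:ℤ) * (4 * k + 4) ≤ K * (4 * k + 4) := fun j hj => by
    have : (j:ℤ) ≤ K := by exact_mod_cast hj
    exact mul_le_mul_of_nonneg_right this (by omega)
  -- boxes inside `Λ`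
  have hin : ∀ j : ℕ, j ≤ K → bx m (w0 + j * (4 * k + 4)) (5 + 3 * j) ⊆ Λ := by
    intro j hj
    have hjK : (j:ℤ) ≤ K := by exact_mod_cast hj
    have := hj5 j hj
    exact (bx_mono (by omega) (by omega) (by omega)).trans hΛ
  have hinK : ∀ j : ℕ, j ≤ K → bx m (w0 + j * (4 * k + 4)) (5 + 3 * j) ⊆ bx m wK hK := by
    intro j hj
    have hjK : (j:ℤ) ≤ K := by exact_mod_cast hj
    have := hj5 j hj
    exact bx_mono (by omega) (by omega) (by omega)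
  have eK : bx m (w0 + K * (4 * k + 4)) (5 + 3 * K) = bx m wK hK := by rw [ewK, ehK]
  -- the side chain
  have hRK : bx (m * hK) (2 * K + 1) 1 ⊆ bx m wK hK := by
    intro x hx
    rw [mem_bx] at hx ⊢
    have e1 : 2 * (m * hK) * (2 * (K:ℤ) + 1) = 2 * m * w0 := by rw [ew0]; ring
    have e2 : 2 * ((m:ℤ) * hK) * 1 = 2 * m * hK := by ring
    have e3 := mul_le_mul_of_nonneg_left (show w0 ≤ wK by omega) (show 0 ≤ 2 * (m:ℤ) by omega)
    rw [e1, e2] at hx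
    omega
  have hRΛ : bx (m * hK) (2 * K + 3) 3 ⊆ Λ := by
    refine Subset.trans ?_ hΛ
    intro x hx
    rw [mem_bx] at hx ⊢
    have e1 : 2 * (m * hK) * (2 * (K:ℤ) + 3) = 2 * m * (w0 + 2 * hK) := by rw [ew0]; ring
    have e2 : 2 * ((m:ℤ) * hK) * 3 = 2 * m * (hK + 2 * hK) := by ring
    have e3 := mul_le_mul_of_nonneg_left (show w0 + 2 * hK ≤ wK + 2 * hK by omega)
      (show 0 ≤ 2 * (m:ℤ) by omega)
    have e4 := mul_le_mul_of_nonneg_left (show hK + 2 * hK ≤ wK + 2 * hK by omega)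
      (show 0 ≤ 2 * (m:ℤ) by omega)
    rw [e1, e2] at hx
    omega
  have hmh : k + 2 ≤ m * hK := by nlinarith
  have hside0 := side_chain E hk hmh hRΛ
  have hside : P Λ (fun S => ArmEv (· ∈ S) k (bx m (w0 + K * (4 * k + 4)) (5 + 3 * K) :
      Set (ℤ × ℤ)) ∧ ∃ j < K, SdE k m (w0 + (j:ℤ) * (4 * k + 4)) (5 + 3 * j) S) ≤
      (1 - nc ^ 8) ^ K * fA k m := by
    refine le_trans (P_mono (fun S _ hS => ?_)) (hside0.trans (mul_le_mul_of_nonneg_left ?_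
      (pow_nonneg hz _)))
    · obtain ⟨hE, j, hj, hs⟩ := hS
      rw [eK] at hE
      have hjK : (j:ℤ) ≤ K := by exact_mod_cast hj.le
      refine side_incl hE (hinK j hj.le) hRK ?_ ?_ hs
      · have e1 : 2 * (m * hK) * (2 * (K:ℤ) + 1) = 2 * m * w0 := by rw [ew0]; ring
        rw [e1]
        have := hj4 j
        exact mul_le_mul_of_nonneg_left (by omega) (by omega)
      · have e2 : 2 * ((m:ℤ) * hK) * 1 = 2 * m * hK := by ring
        rw [e2]
        exact mul_le_mul_of_nonneg_left (by omega) (by omega)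
    · rw [coe_bx]
      have e2 : 2 * ((m:ℤ) * hK) * 1 - 1 = 2 * m * hK - 1 := by ring
      have e3 : (m:ℤ) ≤ 2 * m * hK - 1 := by nlinarith
      rw [e2]
      refine prob_mono e3 e3 (Subset.refl _) ?_
      refine Subset.trans ?_ hΛ
      exact bx_mono (by omega) (by omega) (by omega)
  -- the one-step inequality
  have main := one_step (F := Λ) (T := fun j => T (bx m (w0 + (j:ℤ) * (4 * k + 4)) (5 + 3 * j)))
    (Ev := fun j S => ArmEv (· ∈ S) k (bx m (w0 + (j:ℤ) * (4 * k + 4)) (5 + 3 * j) : Set (ℤ × ℤ)))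
    (Nr := fun j S => ∃ c n t, Arms (· ∈ S) k
      (bx m (w0 + (j:ℤ) * (4 * k + 4)) (5 + 3 * j) : Set (ℤ × ℤ)) c n t ∧
      (¬ SdX (2 * m * (w0 + (j:ℤ) * (4 * k + 4)) - 1) k c n ∧ NearX m k c n))
    (Fr := fun j S => ∃ c n t, Arms (· ∈ S) k
      (bx m (w0 + (j:ℤ) * (4 * k + 4)) (5 + 3 * j) : Set (ℤ × ℤ)) c n t ∧
      (¬ SdX (2 * m * (w0 + (j:ℤ) * (4 * k + 4)) - 1) k c n ∧ ¬ NearX m k c n))
    (Sd := fun S => ∃ j < K, SdE k m (w0 + (j:ℤ) * (4 * k + 4)) (5 + 3 * j) S) (G := G) (K := K)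
    hq1 hcc (fun j _ => E.stop _ _)
    (fun j hj S _ => E.mono _ _ (bx_mono (by omega) (by
      push_cast
      have : ((j:ℤ) + 1) * (4 * k + 4) = j * (4 * k + 4) + (4 * k + 4) := by ring
      omega) (by push_cast; omega)) S)
    (fun j _ => by
      intro S hS S' hS' h
      have := E.dec Λ (bx m (w0 + (j:ℤ) * (4 * k + 4)) (5 + 3 * j)) (fun _ _ _ => True) S hS S' hS' h
      simp only [and_true] at this
      exact this)
    (fun j _ => E.dec _ _ (fun c n _ => ¬ SdX (2 * m * (w0 + (j:ℤ) * (4 * k + 4)) - 1) k c n ∧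
      NearX m k c n))
    (fun j _ => E.dec _ _ (fun c n _ => ¬ SdX (2 * m * (w0 + (j:ℤ) * (4 * k + 4)) - 1) k c n ∧
      ¬ NearX m k c n))
    (fun j hj S _ hS => armEv_mono (by
      have := bx_mono (m := m) (w := w0 + (j:ℤ) * (4 * k + 4)) (h := 5 + 3 * (j:ℤ))
        (w' := w0 + ((j + 1 : ℕ):ℤ) * (4 * k + 4)) (h' := 5 + 3 * ((j + 1 : ℕ):ℤ)) (by omega) (by
          push_cast
          have : ((j:ℤ) + 1) * (4 * k + 4) = j * (4 * k + 4) + (4 * k + 4) := by ring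
          omega) (by push_cast; omega)
      exact_mod_cast this) hS)
    (fun S _ hE hs j hj => by
      obtain ⟨c, n, t, ha⟩ := hE
      obtain ⟨s, e, -, h2⟩ := arms_sub ha
        (D := (bx m (w0 + (j:ℤ) * (4 * k + 4)) (5 + 3 * j) : Set (ℤ × ℤ))) (by
          have := hinK j hj.le
          rw [← eK] at this
          exact_mod_cast this)
      push Not at hs
      have h3 := hs j hj
      have h4 : ¬ SdX (2 * m * (w0 + (j:ℤ) * (4 * k + 4)) - 1) k (fun j i => c j (s j + i))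
          (fun j => e j - s j) := fun h => h3 ⟨_, _, _, h2, h⟩
      by_cases h5 : NearX m k (fun j i => c j (s j + i)) (fun j => e j - s j)
      · exact Or.inl ⟨_, _, _, h2, h4, h5⟩
      · exact Or.inr ⟨_, _, _, h2, h4, h5⟩)
    (fun j hj S _ _ hN => by
      obtain ⟨c, n, t, ha, hs, hn⟩ := hN
      have := hj4 j
      have hjn : (0:ℤ) ≤ j := by positivity
      have h1 := near_step E hk hkm (by omega) (by omega) (Λ := Λ) (by
        refine Subset.trans ?_ (hin (j + 1) (by omega))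
        apply bx_mono (by omega)
        · push_cast
          have : ((j:ℤ) + 1) * (4 * k + 4) = j * (4 * k + 4) + (4 * k + 4) := by ring
          omega
        · push_cast; omega) ha hs hn
      rw [show w0 + (j:ℤ) * (4 * k + 4) + (4 * k + 4) = w0 + ((j + 1 : ℕ):ℤ) * (4 * k + 4) by
        push_cast; ring, show 5 + 3 * (j:ℤ) + 3 = 5 + 3 * ((j + 1 : ℕ):ℤ) by push_cast; ring] at h1
      exact h1)
    (fun j hj S hS _ hF => by
      obtain ⟨c, n, t, ha, hs, hn⟩ := hF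
      exact hfar j hj S hS c n t ha hs hn)
    hside
  -- conclusion
  have h1 : fA k ((2 * wK).toNat * m) ≤ P Λ (fun S => ArmEv (· ∈ S) k
      (bx m (w0 + K * (4 * k + 4)) (5 + 3 * K) : Set (ℤ × ℤ))) := by
    unfold fA
    rw [eK, coe_bx]
    have e1 : (((2 * wK).toNat * m : ℕ) : ℤ) = 2 * m * wK := by
      push_cast
      rw [Int.toNat_of_nonneg (by omega)]
      ring
    rw [e1]
    refine prob_mono (by omega) ?_ ?_ (Subset.refl _)
    · have := mul_le_mul_of_nonneg_left (show hK ≤ wK by omega) (show 0 ≤ 2 * (m:ℤ) by omega)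
      omega
    · exact (bx_mono (by omega) (by omega) (by omega)).trans hΛ
  have h2 : P Λ (fun S => ArmEv (· ∈ S) k
      (bx m (w0 + ((0:ℕ):ℤ) * (4 * k + 4)) (5 + 3 * ((0:ℕ):ℤ)) : Set (ℤ × ℤ))) ≤ fA k m := by
    have h3 := hin 0 (Nat.zero_le _)
    rw [coe_bx]
    unfold fA
    refine prob_mono ?_ ?_ (Subset.refl _) h3
    · push_cast
      nlinarith
    · push_cast
      nlinarith
  calc fA k ((2 * wK).toNat * m) ≤ _ := h1
    _ ≤ _ := main
    _ ≤ (1 - nc ^ (4 * (8 * k + 11)).toNat) ^ K * fA k m + (1 - nc ^ 8) ^ K * fA k m +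
        K / cc * P Λ G := by
      exact add_le_add (add_le_add (mul_le_mul_of_nonneg_left h2 (pow_nonneg hq1 K)) le_rfl) le_rfl
    _ = _ := by ring

/-- **the upper bound** -/
theorem arm_upper {k : ℤ} {T : Finset (ℤ × ℤ) → Finset (ℤ × ℤ) → Finset (ℤ × ℤ)} (E : Expl k T)
    (hk : 1 ≤ k) {α : ℝ} (hα : 0 < α) (H : FarHyp k T α) :
    ∃ C : ℝ, 0 < C ∧ ∀ n : ℕ, 1 ≤ n → fA k n ≤ C * (n:ℝ) ^ (-α) := by
  have hnc : ∀ N : ℕ, (0:ℝ) < nc ^ N ∧ nc ^ N ≤ 1 := fun N =>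
    ⟨pow_pos nc_pos _, pow_le_one₀ nc_pos.le nc_le_one⟩
  obtain ⟨q, hq⟩ : ∃ q : ℝ, q = max (1 - nc ^ (4 * (8 * k + 11)).toNat) (1 - nc ^ 8) := ⟨_, rfl⟩
  have hq0 : 0 ≤ q := by
    rw [hq]
    exact le_max_of_le_right (by linarith [(hnc 8).2])
  have hq1 : q < 1 := by
    rw [hq]
    exact max_lt (by linarith [(hnc (4 * (8 * k + 11)).toNat).1]) (by linarith [(hnc 8).1])
  have hA : (0:ℝ) < 8 * k + 56 := by
    have : (0:ℝ) < k := by exact_mod_cast (show (0:ℤ) < k by omega)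
    linarith
  obtain ⟨K, hK1, hK2⟩ := exists_layers hq0 hq1 (2 * (8 * (k:ℝ) + 56) ^ α) (α := α) 1
  obtain ⟨hK, ehK⟩ : ∃ hK : ℤ, hK = 5 + 3 * K := ⟨_, rfl⟩
  obtain ⟨w0, ew0⟩ : ∃ w0 : ℤ, w0 = hK * (2 * K + 1) := ⟨_, rfl⟩
  obtain ⟨wK, ewK⟩ : ∃ wK : ℤ, wK = w0 + K * (4 * k + 4) := ⟨_, rfl⟩
  have hKz : (1:ℤ) ≤ K := by exact_mod_cast hK1
  have hw0 : hK ≤ w0 := by
    rw [ew0]
    nlinarith
  have hpk : 0 ≤ (K:ℤ) * (4 * k + 4) := by positivity
  obtain ⟨Λ, G, C, hΛ, hG, hF⟩ := H (wK + 2 * hK)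
  have hcc : ∀ j : ℕ, ∃ cc : ℝ, j < K → (0 < cc ∧ ∀ m : ℤ, k + 2 ≤ m → ∀ S ⊆ Λ m, ∀ c n t,
      Arms (· ∈ S) k (bx m (w0 + j * (4 * k + 4)) (5 + 3 * j) : Set (ℤ × ℤ)) c n t →
      ¬ SdX (2 * m * (w0 + j * (4 * k + 4)) - 1) k c n → ¬ NearX m k c n →
      cc ≤ P (Λ m) (fun S' => G m (mix (T (bx m (w0 + j * (4 * k + 4)) (5 + 3 * j)) S) S S'))) := by
    intro j
    by_cases hj : j < K
    · have hjK : (j:ℤ) ≤ K := by exact_mod_cast hj.le
      have hj4 : 0 ≤ (j:ℤ) * (4 * k + 4) := by positivity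
      have hj5 : (j:ℤ) * (4 * k + 4) ≤ K * (4 * k + 4) :=
        mul_le_mul_of_nonneg_right hjK (by omega)
      obtain ⟨cc, h1, h2⟩ := hF (w0 + j * (4 * k + 4)) (5 + 3 * j) (by omega) (by omega) (by omega)
      exact ⟨cc, fun _ => ⟨h1, h2⟩⟩
    · exact ⟨0, fun h => absurd h hj⟩
  choose ccf hccf using hcc
  obtain ⟨cc, hcc0, hcc1⟩ := exists_min_pos ccf K (fun j hj => (hccf j hj).1)
  have hk2 : (0:ℝ) < ((k + 2 : ℤ):ℝ) := by exact_mod_cast (show (0:ℤ) < k + 2 by omega)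
  obtain ⟨C4, hC4⟩ : ∃ C4 : ℝ, C4 = K / cc * |C| + ((k + 2 : ℤ):ℝ) ^ α := ⟨_, rfl⟩
  have hC40 : 0 ≤ C4 := by
    rw [hC4]
    have := Real.rpow_nonneg hk2.le α
    positivity
  refine power_of_step (f := fA k) (fun n => P_nonneg _ _) (fun n => P_le_one _ _) (fA_anti k) hα
    (W := (2 * wK).toNat) (by omega) (ε := 2 * q ^ K) (C := C4) hC40 ?_ ?_
  · -- the choice of `K`
    refine le_trans ?_ hK2
    have hKr : (1:ℝ) ≤ K := by exact_mod_cast hK1
    have e1 : (((2 * wK).toNat : ℕ):ℝ) ≤ (8 * (k:ℝ) + 56) * (K:ℝ) ^ 2 := by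
      have e2 : (((2 * wK).toNat : ℕ):ℤ) ≤ (8 * k + 56) * (K:ℤ) ^ 2 := by
        rw [Int.toNat_of_nonneg (by omega), ewK, ew0, ehK]
        have g1 : (K:ℤ) ≤ (K:ℤ) ^ 2 := by nlinarith
        have g2 : 1 ≤ (K:ℤ) ^ 2 := by nlinarith
        have g3 : k * (K:ℤ) ≤ k * (K:ℤ) ^ 2 := mul_le_mul_of_nonneg_left g1 (by omega)
        nlinarith
      exact_mod_cast e2
    have e3 : (((2 * wK).toNat : ℕ):ℝ) ^ α ≤ (8 * (k:ℝ) + 56) ^ α * ((K:ℝ) ^ 2) ^ α := by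
      rw [← Real.mul_rpow hA.le (by positivity)]
      exact Real.rpow_le_rpow (by positivity) e1 hα.le
    calc 2 * q ^ K * (((2 * wK).toNat : ℕ):ℝ) ^ α ≤
          2 * q ^ K * ((8 * (k:ℝ) + 56) ^ α * ((K:ℝ) ^ 2) ^ α) :=
          mul_le_mul_of_nonneg_left e3 (by positivity)
      _ = _ := by ring
  · intro m hm
    have hmr : (0:ℝ) < m := by exact_mod_cast hm
    by_cases hkm : k + 2 ≤ m
    · have hm' : (1:ℤ) ≤ m := by exact_mod_cast hm
      have h1 := scale_step E hk hkm ehK ew0 ewK (hΛ m hm') hcc0 (G := G m) (by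
        intro j hj S hS c n t ha hs hn
        exact (hcc1 j hj).trans ((hccf j hj).2 m hkm S hS c n t ha hs hn))
      have h2 := hG m hm'
      rw [Int.cast_natCast] at h2
      have h3 : 0 ≤ fA k m := P_nonneg _ _
      have h4 : (1 - nc ^ (4 * (8 * k + 11)).toNat) ^ K ≤ q ^ K :=
        pow_le_pow_left₀ (by linarith [(hnc (4 * (8 * k + 11)).toNat).2])
          (by rw [hq]; exact le_max_left _ _) _
      have h5 : (1 - nc ^ 8) ^ K ≤ q ^ K :=
        pow_le_pow_left₀ (by linarith [(hnc 8).2]) (by rw [hq]; exact le_max_right _ _) _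
      have h6 : ((1 - nc ^ (4 * (8 * k + 11)).toNat) ^ K + (1 - nc ^ 8) ^ K) * fA k m ≤
          2 * q ^ K * fA k m := mul_le_mul_of_nonneg_right (by linarith) h3
      have hx : (0:ℝ) < (m:ℝ) ^ (-α) := Real.rpow_pos_of_pos hmr _
      have h7 : K / cc * P (Λ m) (G m) ≤ C4 * (m:ℝ) ^ (-α) := by
        have h8 : C * (m:ℝ) ^ (-α) ≤ |C| * (m:ℝ) ^ (-α) :=
          mul_le_mul_of_nonneg_right (le_abs_self C) hx.le
        have h9 : K / cc * P (Λ m) (G m) ≤ K / cc * (|C| * (m:ℝ) ^ (-α)) :=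
          mul_le_mul_of_nonneg_left (h2.trans h8) (by positivity)
        have h10 := Real.rpow_nonneg hk2.le α
        rw [hC4, add_mul]
        have h11 : 0 ≤ ((k + 2 : ℤ):ℝ) ^ α * (m:ℝ) ^ (-α) := mul_nonneg h10 hx.le
        linarith
      linarith
    · have h1 : fA k ((2 * wK).toNat * m) ≤ 1 := P_le_one _ _
      have h2 : (1:ℝ) ≤ ((k + 2 : ℤ):ℝ) ^ α * (m:ℝ) ^ (-α) := by
        have h3 : (m:ℝ) ≤ ((k + 2 : ℤ):ℝ) := by
          have : (m:ℤ) ≤ k + 2 := by omega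
          exact_mod_cast this
        have h4 := Real.rpow_le_rpow hmr.le h3 hα.le
        have h5 : (0:ℝ) < (m:ℝ) ^ α := Real.rpow_pos_of_pos hmr _
        rw [Real.rpow_neg hmr.le, ← div_eq_mul_inv, le_div_iff₀ h5, one_mul]
        exact h4
      have h3 : 0 ≤ 2 * q ^ K * fA k m := mul_nonneg (by positivity) (P_nonneg _ _)
      have hx : (0:ℝ) < (m:ℝ) ^ (-α) := Real.rpow_pos_of_pos hmr _
      have h4 : ((k + 2 : ℤ):ℝ) ^ α * (m:ℝ) ^ (-α) ≤ C4 * (m:ℝ) ^ (-α) := by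
        apply mul_le_mul_of_nonneg_right _ hx.le
        rw [hC4]
        have : 0 ≤ K / cc * |C| := by positivity
        linarith
      linarith

end Arm57
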