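import Pool.Agent.Helper57.Arm.Stop

/-!
The multi-scale iteration: from a one-step inequality to a power law; chains of explored events.
-/

set_option autoImplicit false

namespace Arm57

open Finset
open Pool.Agent.Helper69.RSW (P P_mono P_congr P_nonneg P_le_one P_or_le P_true P_false P_sum)

/-- a one-step inequality with a small factor gives the power law -/
theorem power_of_step {f : ℕ → ℝ} (hf0 : ∀ n, 0 ≤ f n) (hf1 : ∀ n, f n ≤ 1) (hanti : Antitone f)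
    {α : ℝ} (hα : 0 < α) {W : ℕ} (hW : 2 ≤ W) {ε C : ℝ} (hC : 0 ≤ C)
    (hε : ε * (W:ℝ) ^ α ≤ 1 / 2)
    (h : ∀ m : ℕ, 1 ≤ m → f (W * m) ≤ ε * f m + C * (m:ℝ) ^ (-α)) :
    ∃ C' : ℝ, 0 < C' ∧ ∀ n : ℕ, 1 ≤ n → f n ≤ C' * (n:ℝ) ^ (-α) := by
  have hW0 : (0:ℝ) < W := by
    have : 0 < W := by omega
    exact_mod_cast this
  have hWα : (0:ℝ) < (W:ℝ) ^ α := Real.rpow_pos_of_pos hW0 _
  obtain ⟨M, hM⟩ : ∃ M : ℝ, M = 1 + 2 * C * (W:ℝ) ^ α := ⟨_, rfl⟩
  have hM1 : 1 ≤ M := by rw [hM]; nlinarith [mul_nonneg hC hWα.le]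
  have key : ∀ j : ℕ, f (W ^ j) * ((W ^ j : ℕ):ℝ) ^ α ≤ M := by
    intro j
    induction j with
    | zero =>
      simp only [pow_zero, Nat.cast_one, Real.one_rpow, mul_one]
      exact (hf1 1).trans hM1
    | succ j ih =>
      have hj : 1 ≤ W ^ j := Nat.one_le_pow _ _ (by omega)
      have hj0 : (0:ℝ) < ((W ^ j : ℕ):ℝ) := by exact_mod_cast hj
      have h1 := h (W ^ j) hj
      have e1 : W ^ (j + 1) = W * W ^ j := by ring
      rw [e1]
      push_cast at h1 hj0 ih ⊢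
      rw [Real.mul_rpow hW0.le hj0.le]
      have e2 : ((W:ℝ) ^ j) ^ (-α) * ((W:ℝ) ^ j) ^ α = 1 := by
        rw [← Real.rpow_add hj0]; simp
      have hX : 0 < ((W:ℝ) ^ j) ^ α := Real.rpow_pos_of_pos hj0 _
      have h2 := mul_le_mul_of_nonneg_right h1 (mul_pos hWα hX).le
      refine h2.trans ?_
      have e3 : (ε * f (W ^ j) + C * ((W:ℝ) ^ j) ^ (-α)) * ((W:ℝ) ^ α * ((W:ℝ) ^ j) ^ α) =
          (ε * (W:ℝ) ^ α) * (f (W ^ j) * ((W:ℝ) ^ j) ^ α) +
            C * (W:ℝ) ^ α * (((W:ℝ) ^ j) ^ (-α) * ((W:ℝ) ^ j) ^ α) := by ring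
      rw [e3, e2, mul_one]
      have h3 : 0 ≤ f (W ^ j) * ((W:ℝ) ^ j) ^ α := mul_nonneg (hf0 _) hX.le
      have h4 : (ε * (W:ℝ) ^ α) * (f (W ^ j) * ((W:ℝ) ^ j) ^ α) ≤ 1 / 2 * M :=
        (mul_le_mul_of_nonneg_right hε h3).trans (mul_le_mul_of_nonneg_left ih (by norm_num))
      rw [hM] at h4 ⊢
      linarith
  refine ⟨M * (W:ℝ) ^ α, by positivity, fun n hn => ?_⟩
  have hn0 : (0:ℝ) < n := by exact_mod_cast hn
  obtain ⟨j, hj1, hj2⟩ : ∃ j : ℕ, W ^ j ≤ n ∧ n < W ^ (j + 1) := by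
    refine ⟨Nat.log W n, Nat.pow_log_le_self W (by omega), Nat.lt_pow_succ_log_self (by omega) n⟩
  have hj0 : (0:ℝ) < ((W ^ j : ℕ):ℝ) := by
    have : 0 < W ^ j := Nat.pow_pos (by omega)
    exact_mod_cast this
  have h1 := key j
  have h2 : f n ≤ f (W ^ j) := hanti hj1
  have h3 : (n:ℝ) ^ α ≤ (W:ℝ) ^ α * ((W ^ j : ℕ):ℝ) ^ α := by
    rw [← Real.mul_rpow hW0.le hj0.le]
    apply Real.rpow_le_rpow hn0.le _ hα.le
    have : n ≤ W * W ^ j := by rw [← pow_succ']; exact hj2.le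
    exact_mod_cast this
  have hnα : (0:ℝ) < (n:ℝ) ^ α := Real.rpow_pos_of_pos hn0 _
  rw [Real.rpow_neg hn0.le, ← div_eq_mul_inv, le_div_iff₀ hnα]
  calc f n * (n:ℝ) ^ α ≤ f (W ^ j) * ((W:ℝ) ^ α * ((W ^ j : ℕ):ℝ) ^ α) :=
        mul_le_mul h2 h3 hnα.le (hf0 _)
    _ = (f (W ^ j) * ((W ^ j : ℕ):ℝ) ^ α) * (W:ℝ) ^ α := by ring
    _ ≤ M * (W:ℝ) ^ α := mul_le_mul_of_nonneg_right h1 hWα.le

/-- choice of the number of layers -/
lemma exists_layers {q : ℝ} (hq0 : 0 ≤ q) (hq1 : q < 1) (B : ℝ) {α : ℝ} (s : ℕ) :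
    ∃ K : ℕ, s ≤ K ∧ B * q ^ K * ((K:ℝ) ^ 2) ^ α ≤ 1 / 2 := by
  obtain ⟨k, hk⟩ := exists_nat_ge α
  have h1 := tendsto_pow_const_mul_const_pow_of_lt_one (2 * k) hq0 hq1
  have h2 : Filter.Tendsto (fun n : ℕ => |B| * ((n:ℝ) ^ (2 * k) * q ^ n)) Filter.atTop (nhds 0) := by
    simpa using h1.const_mul |B|
  have h3 := (h2.eventually (gt_mem_nhds (by norm_num : (0:ℝ) < 1 / 2))).and
    (Filter.eventually_ge_atTop (s + 1))
  obtain ⟨K, hK1, hK2⟩ := h3.exists
  refine ⟨K, by omega, le_trans ?_ hK1.le⟩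
  have hK0 : (1:ℝ) ≤ K := by
    have : 1 ≤ K := by omega
    exact_mod_cast this
  have h4 : ((K:ℝ) ^ 2) ^ α ≤ (K:ℝ) ^ (2 * k) := by
    rw [pow_mul, ← Real.rpow_natCast ((K:ℝ) ^ 2) k]
    exact Real.rpow_le_rpow_of_exponent_le (one_le_pow₀ hK0) hk
  have h5 : 0 ≤ q ^ K := pow_nonneg hq0 _
  have h6 : 0 ≤ ((K:ℝ) ^ 2) ^ α := by positivity
  calc B * q ^ K * ((K:ℝ) ^ 2) ^ α ≤ |B| * q ^ K * ((K:ℝ) ^ 2) ^ α := by
        apply mul_le_mul_of_nonneg_right _ h6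
        exact mul_le_mul_of_nonneg_right (le_abs_self B) h5
    _ ≤ |B| * q ^ K * (K:ℝ) ^ (2 * k) := mul_le_mul_of_nonneg_left h4 (by positivity)
    _ = _ := by ring

variable {E : Type*} [DecidableEq E]

/-- a chain of explored events -/
theorem chain_le {F : Finset E} {T : ℕ → Finset E → Finset E} {A : ℕ → Finset E → Prop}
    {K : ℕ} {q : ℝ} (hq : 0 ≤ q) (hT : ∀ j < K, Stop F (T j)) (hA : ∀ j < K, Dec F (T j) (A j))
    (hAA : ∀ j < K, ∀ S ⊆ F, A (j + 1) S → A j S)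
    (h : ∀ j < K, ∀ S ⊆ F, A j S → P F (fun S' => A (j + 1) (mix (T j S) S S')) ≤ q) :
    P F (A K) ≤ q ^ K * P F (A 0) := by
  have key : ∀ j ≤ K, P F (A j) ≤ q ^ j * P F (A 0) := by
    intro j
    induction j with
    | zero => intro _; simp
    | succ j ih =>
      intro hj
      have h1 := resample_le (hT j (by omega)) (hA j (by omega)) (B := A (j + 1)) (ε := q)
        (h j (by omega))
      have h2 : P F (A (j + 1)) ≤ P F (fun S => A j S ∧ A (j + 1) S) :=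
        P_mono (fun S hS hS' => ⟨hAA j (by omega) S hS hS', hS'⟩)
      calc P F (A (j + 1)) ≤ q * P F (A j) := h2.trans h1
        _ ≤ q * (q ^ j * P F (A 0)) := mul_le_mul_of_nonneg_left (ih (by omega)) hq
        _ = q ^ (j + 1) * P F (A 0) := by ring
  exact key K le_rfl

lemma P_exists_le {F : Finset E} (A : ℕ → Finset E → Prop) (K : ℕ) :
    P F (fun S => ∃ j < K, A j S) ≤ ∑ j ∈ range K, P F (A j) := by
  induction K with
  | zero =>
    rw [range_zero, sum_empty]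
    refine (P_mono (B := fun _ => False) ?_).trans (P_false F).le
    rintro S _ ⟨j, hj, _⟩
    omega
  | succ K ih =>
    rw [sum_range_succ]
    refine le_trans (P_mono (B := fun S => (∃ j < K, A j S) ∨ A K S) ?_) ((P_or_le _ _ _).trans
      (add_le_add_left ih _))
    rintro S _ ⟨j, hj, h⟩
    rcases Nat.lt_or_ge j K with h1 | h1
    · exact Or.inl ⟨j, h1, h⟩
    · have : j = K := by omega
      subst this
      exact Or.inr h

/-- **The one-step inequality.** `Ev j`: the walks leave the region `D j`; `Nr j`: two exits are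
near; `Fr j`: all exits are far; `Sd`: some side exit. -/
theorem one_step {F : Finset E} {T : ℕ → Finset E → Finset E} {Ev Nr Fr : ℕ → Finset E → Prop}
    {Sd G : Finset E → Prop} {K : ℕ} {q z c : ℝ} (hq : 0 ≤ q) (hc : 0 < c)
    (hT : ∀ j < K, Stop F (T j)) (hmono : ∀ j < K, ∀ S ⊆ F, T j S ⊆ T (j + 1) S)
    (hE : ∀ j < K, Dec F (T j) (Ev j)) (hN : ∀ j < K, Dec F (T j) (Nr j))
    (hF : ∀ j < K, Dec F (T j) (Fr j))
    (hEE : ∀ j < K, ∀ S ⊆ F, Ev (j + 1) S → Ev j S)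
    (hcov : ∀ S ⊆ F, Ev K S → ¬ Sd S → ∀ j < K, Nr j S ∨ Fr j S)
    (hnear : ∀ j < K, ∀ S ⊆ F, Ev j S → Nr j S → P F (fun S' => Ev (j + 1) (mix (T j S) S S')) ≤ q)
    (hfar : ∀ j < K, ∀ S ⊆ F, Ev j S → Fr j S → c ≤ P F (fun S' => G (mix (T j S) S S')))
    (hside : P F (fun S => Ev K S ∧ Sd S) ≤ z) :
    P F (Ev K) ≤ q ^ K * P F (Ev 0) + z + K / c * P F G := by
  -- the chain of near exits
  have hTm : ∀ i j : ℕ, i ≤ j → j ≤ K → ∀ S ⊆ F, T i S ⊆ T j S := by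
    intro i j hij
    induction j, hij using Nat.le_induction with
    | base => intro _ S _; exact Subset.rfl
    | succ j hij ih =>
      intro hj S hS
      exact (ih (by omega) S hS).trans (hmono j (by omega) S hS)
  have hdec : ∀ j < K, Dec F (T j) (fun S => ∀ i < j, Nr i S) := by
    intro j hj S hS S' hS' h
    have : ∀ i < j, (Nr i S' ↔ Nr i S) := fun i hi =>
      ((hN i (by omega)).mono (hTm i j hi.le hj.le)) S hS S' hS' h
    constructor
    · intro h1 i hi; exact (this i hi).1 (h1 i hi)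
    · intro h1 i hi; exact (this i hi).2 (h1 i hi)
  have hdec' : ∀ j < K, Dec F (T j) (fun S => Ev j S ∧ ∀ i < j, Nr i S) := fun j hj =>
    (hE j hj).and (hdec j hj)
  have key : ∀ j ≤ K, P F (fun S => Ev j S ∧ ∀ i < j, Nr i S) ≤ q ^ j * P F (Ev 0) := by
    intro j
    induction j with
    | zero =>
      intro _
      rw [pow_zero, one_mul]
      exact P_mono (fun S _ h => h.1)
    | succ j ih =>
      intro hj
      have hd : Dec F (T j) (fun S => Ev j S ∧ (∀ i < j, Nr i S) ∧ Nr j S) :=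
        (hE j (by omega)).and ((hdec j (by omega)).and (hN j (by omega)))
      have h1 := resample_le (hT j (by omega)) hd (B := Ev (j + 1)) (ε := q)
        (fun S hS h => hnear j (by omega) S hS h.1 h.2.2)
      have h2 : P F (fun S => Ev (j + 1) S ∧ ∀ i < j + 1, Nr i S) ≤
          P F (fun S => (Ev j S ∧ (∀ i < j, Nr i S) ∧ Nr j S) ∧ Ev (j + 1) S) :=
        P_mono (fun S hS h => ⟨⟨hEE j (by omega) S hS h.1, fun i hi => h.2 i (by omega),
          h.2 j (by omega)⟩, h.1⟩)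
      have h3 : P F (fun S => Ev j S ∧ (∀ i < j, Nr i S) ∧ Nr j S) ≤
          P F (fun S => Ev j S ∧ ∀ i < j, Nr i S) := P_mono (fun S _ h => ⟨h.1, h.2.1⟩)
      calc _ ≤ q * P F (fun S => Ev j S ∧ ∀ i < j, Nr i S) :=
            (h2.trans h1).trans (mul_le_mul_of_nonneg_left h3 hq)
        _ ≤ q * (q ^ j * P F (Ev 0)) := mul_le_mul_of_nonneg_left (ih (by omega)) hq
        _ = q ^ (j + 1) * P F (Ev 0) := by ring
  -- the far exits
  have far1 : ∀ j < K, P F (fun S => Ev j S ∧ Fr j S) ≤ 1 / c * P F G := by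
    intro j hj
    have h1 := resample_ge (hT j hj) ((hE j hj).and (hF j hj)) (B := G) (c := c)
      (fun S hS h => hfar j hj S hS h.1 h.2)
    have h2 : P F (fun S => (Ev j S ∧ Fr j S) ∧ G S) ≤ P F G := P_mono (fun S _ h => h.2)
    rw [div_mul_eq_mul_div, one_mul, le_div_iff₀ hc, mul_comm]
    exact h1.trans h2
  have hEj : ∀ j ≤ K, ∀ S ⊆ F, Ev K S → Ev j S := by
    intro j hj
    induction hj using Nat.decreasingInduction with
    | self => intro S _ h; exact h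
    | of_succ j hj ih => intro S hS h; exact hEE j hj S hS (ih S hS h)
  have cover : P F (Ev K) ≤ P F (fun S => (Ev K S ∧ ∀ i < K, Nr i S) ∨
      ((Ev K S ∧ Sd S) ∨ ∃ j < K, Ev j S ∧ Fr j S)) := by
    apply P_mono
    intro S hS h
    by_cases hs : Sd S
    · exact Or.inr (Or.inl ⟨h, hs⟩)
    · have h1 := hcov S hS h hs
      by_cases h2 : ∀ i < K, Nr i S
      · exact Or.inl ⟨h, h2⟩
      · push Not at h2
        obtain ⟨i, hi, h3⟩ := h2
        exact Or.inr (Or.inr ⟨i, hi, hEj i hi.le S hS h, (h1 i hi).resolve_left h3⟩)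
  have s1 := key K le_rfl
  have s2 := P_exists_le (F := F) (fun j S => Ev j S ∧ Fr j S) K
  have s3 : ∑ j ∈ range K, P F (fun S => Ev j S ∧ Fr j S) ≤ K / c * P F G := by
    calc _ ≤ ∑ j ∈ range K, 1 / c * P F G := sum_le_sum (fun j hj => far1 j (mem_range.1 hj))
      _ = _ := by
        rw [sum_const, card_range, nsmul_eq_mul]
        ring
  calc P F (Ev K) ≤ _ := cover
    _ ≤ _ := P_or_le _ _ _
    _ ≤ q ^ K * P F (Ev 0) + (z + K / c * P F G) := by
        refine add_le_add s1 ((P_or_le _ _ _).trans (add_le_add hside (s2.trans s3)))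
    _ = _ := by ring

end Arm57
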