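import Pool.Agent.Helper57.Arm.Side
import Pool.Agent.Helper47.Arms.KExpl

/-!
One scale of the iteration: near exits, side exits, far exits.
-/

set_option autoImplicit false

namespace Arm57

open Finset CB
open TA hiding Thru armsE_of mem_visited
open Pool.Agent.Helper69.RSW (P P_mono P_congr P_nonneg P_le_one P_or_le P_true P_false P_sum
  P_compl P_restrict Dep)

/-- the explored set of helper72 is an exploration -/
lemma expl_explK (k : ℤ) : Expl k (explK k) where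
  stop := fun F D => stop_explK F D k
  sub := fun D S => explK_subset k D S
  mono := fun _ _ h S => explK_mono h k S
  dec := fun F D Q => dec_arms F D k Q
  mem := fun _ _ _ _ _ h _ => mem_explK_of_arms h

/-- two exits on the same side in near cells -/
def NearX (m k : ℤ) (c : ℤ → ℕ → ℤ × ℤ) (n : ℤ → ℕ) : Prop :=
  ∃ (j0 j1 : ℤ) (b0 b1 : Bool), (j0, b0) ≠ (j1, b1) ∧ (1 ≤ j0 ∧ j0 ≤ k) ∧ (1 ≤ j1 ∧ j1 ≤ k) ∧
    (er (fun j => ray0 (c j)) (fun j => rayN (c j) (n j)) j0 b0).up =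
      (er (fun j => ray0 (c j)) (fun j => rayN (c j) (n j)) j1 b1).up ∧
    (er (fun j => ray0 (c j)) (fun j => rayN (c j) (n j)) j0 b0).col / (2 * m) ≤
      (er (fun j => ray0 (c j)) (fun j => rayN (c j) (n j)) j1 b1).col / (2 * m) ∧
    (er (fun j => ray0 (c j)) (fun j => rayN (c j) (n j)) j1 b1).col / (2 * m) ≤
      (er (fun j => ray0 (c j)) (fun j => rayN (c j) (n j)) j0 b0).col / (2 * m) + 5

section
variable {k : ℤ} {T : Finset (ℤ × ℤ) → Finset (ℤ × ℤ) → Finset (ℤ × ℤ)} {m w h : ℤ}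
  {Λ S : Finset (ℤ × ℤ)} {c : ℤ → ℕ → ℤ × ℤ} {n t : ℤ → ℕ}

lemma cut_bx (hk : 1 ≤ k) (hkm : k + 2 ≤ m) (hw : 1 ≤ w) (hh : 1 ≤ h) {j : ℤ} (h1 : 1 ≤ j)
    (h2 : j ≤ k) : cU j ∈ rect (2 * m * w - 1) (2 * m * h - 1) ∧
      cD j ∈ rect (2 * m * w - 1) (2 * m * h - 1) := by
  have e1 := mul_le_mul_of_nonneg_left hw (show 0 ≤ 2 * m by omega)
  have e2 := mul_le_mul_of_nonneg_left hh (show 0 ≤ 2 * m by omega)
  exact cut_mem (by omega) (by omega) h1 h2

lemma armsE_std (hk : 1 ≤ k) (hkm : k + 2 ≤ m) (hw : 1 ≤ w) (hh : 1 ≤ h)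
    (ha : Arms (· ∈ S) k (bx m w h : Set (ℤ × ℤ)) c n t) (hs : ¬ SdX (2 * m * w - 1) k c n) :
    ArmsE (· ∈ S) k (bx m w h : Set (ℤ × ℤ)) c n t (2 * m * h - 1) (fun j => ray0 (c j))
      (fun j => rayN (c j) (n j)) := by
  rw [coe_bx] at ha ⊢
  have e2 := mul_le_mul_of_nonneg_left hh (show 0 ≤ 2 * m by omega)
  exact Arm57.armsE_of (by omega) ha (fun j h1 h2 => (cut_bx hk hkm hw hh h1 h2).1)
    (fun j h1 h2 => (cut_bx hk hkm hw hh h1 h2).2) hs

/-- **near step** -/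
theorem near_step (E : Expl k T) (hk : 1 ≤ k) (hkm : k + 2 ≤ m) (hw : 1 ≤ w) (hh : 3 ≤ h)
    (hΛ : bx m (w + (4 * k + 4)) (h + 3) ⊆ Λ)
    (ha : Arms (· ∈ S) k (bx m w h : Set (ℤ × ℤ)) c n t) (hs : ¬ SdX (2 * m * w - 1) k c n)
    (hn : NearX m k c n) :
    P Λ (fun S' => ArmEv (· ∈ mix (T (bx m w h) S) S S') k
      (bx m (w + (4 * k + 4)) (h + 3) : Set (ℤ × ℤ))) ≤ 1 - nc ^ (4 * (8 * k + 11)).toNat := by
  have hm : 1 ≤ m := by omega
  have hE := armsE_std hk hkm hw (by omega) ha hs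
  obtain ⟨j0, j1, b0, b1, h01, h0, h1, hu, hn1, hn2⟩ := hn
  have hx : ∀ j, 1 ≤ j → j ≤ k → ∀ b, -(2 * m * w - 1) ≤ (et c n j b).1 ∧
      (et c n j b).1 ≤ 2 * m * w - 1 := by
    intro j g1 g2 b
    unfold SdX at hs
    push Not at hs
    exact hs j b g1 g2
  obtain ⟨lo, hi, κ, hκ, r1, r2, r3, r4, hdet⟩ := nearK_det hm hk hh hE hx h01 h0 h1 rfl hu.symm
    hn1 hn2
  generalize (er (fun j => ray0 (c j)) (fun j => rayN (c j) (n j)) j0 b0).up = up at hdet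
  obtain ⟨y0, hy0⟩ : ∃ y0 : ℤ, y0 = if up then h - 2 else -h - 2 := ⟨_, rfl⟩
  obtain ⟨y1, hy1⟩ : ∃ y1 : ℤ, y1 = if up then h + 1 else -h + 1 := ⟨_, rfl⟩
  rw [← hy0, ← hy1] at hdet
  have hy01 : y1 = y0 + 3 := by
    rw [hy0, hy1]
    split_ifs <;> ring
  have hyb : -(h + 3) ≤ y0 ∧ y1 + 1 ≤ h + 3 := by
    rw [hy0, hy1]
    split_ifs <;> omega
  have hprob : nc ^ (4 * (8 * k + 11)).toNat ≤ P Λ (fun S' => Net κ m (ringC lo hi y0 y1 :
      Set (ℤ × ℤ)) (S' : Set (ℤ × ℤ))) := by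
    refine plane_net_prob hm hκ _ ?_ ?_
    · intro v hv
      have hb := reg_bounds hm (x0 := lo) (x1 := hi) (y0 := y0) (y1 := y1)
        (fun c hc => (mem_ringC.1 (mem_coe.1 hc)).1) hv
      apply hΛ
      rw [mem_bx]
      have m1 := mul_le_mul_of_nonneg_left (show -(w + (4 * k + 4)) + 1 ≤ lo by omega)
        (show 0 ≤ 2 * m by omega)
      have m2 := mul_le_mul_of_nonneg_left (show hi + 1 ≤ w + (4 * k + 4) by omega)
        (show 0 ≤ 2 * m by omega)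
      have m3 := mul_le_mul_of_nonneg_left (show -(h + 3) + 1 ≤ y0 by
        rw [hy0]; split_ifs <;> omega) (show 0 ≤ 2 * m by omega)
      have m4 := mul_le_mul_of_nonneg_left hyb.2 (show 0 ≤ 2 * m by omega)
      have e1 : 2 * m * (-(w + (4 * k + 4)) + 1) = -(2 * m * (w + (4 * k + 4))) + 2 * m := by ring
      have e3 : 2 * m * (-(h + 3) + 1) = -(2 * m * (h + 3)) + 2 * m := by ring
      omega
    · refine (ringC_card _ _ _ _).trans ?_
      have e1 : (y1 + 1 - y0).toNat = 4 := by omega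
      rw [e1]
      omega
  refine P_le_one_sub hprob ?_
  intro S' _ hnet
  refine hdet S' _ (fun v hv => ?_) (fun v hv => ?_) hnet
  · exact mix_on ((E.mem _ _ _ _ _ ha v).2 hv)
  · exact mix_off (fun h' => hv ((E.mem _ _ _ _ _ ha v).1 h'))

/-- a side exit of a box inside a larger one is a side exit of the long box -/
lemma side_incl {m' w' : ℤ} {D : Finset (ℤ × ℤ)} (hE : ArmEv (· ∈ S) k (D : Set (ℤ × ℤ)))
    (h1 : bx m w h ⊆ D) (h2 : bx m' w' 1 ⊆ D) (hw : 2 * m' * w' ≤ 2 * m * w)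
    (hh : 2 * m * h ≤ 2 * m' * 1) (hs : SdE k m w h S) : SdE k m' w' 1 S := by
  obtain ⟨c, n, t, ha⟩ := hE
  obtain ⟨s1, e1, g1, a1⟩ := arms_sub ha (D := (bx m w h : Set (ℤ × ℤ))) (by exact_mod_cast h1)
  obtain ⟨s2, e2, g2, a2⟩ := arms_sub ha (D := (bx m' w' 1 : Set (ℤ × ℤ))) (by exact_mod_cast h2)
  obtain ⟨c', n', t', ha', j, b, hj1, hj2, hx⟩ := hs
  obtain ⟨-, u2, u3⟩ := a1.uniq ha' hj1 hj2
  refine ⟨_, _, _, a2, j, b, hj1, hj2, ?_⟩
  obtain ⟨p1, p2, p3⟩ := g1 j hj1 hj2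
  obtain ⟨q1, q2, q3⟩ := g2 j hj1 hj2
  have t1 := a1.traj j hj1 hj2
  have t2 := a2.traj j hj1 hj2
  obtain ⟨x1, x2⟩ := exit_between t1 t2 p1 p2 q1 q2
  have key : ∀ x : ℤ × ℤ, x ∈ (bx m w h : Set (ℤ × ℤ)) → x ∉ (bx m' w' 1 : Set (ℤ × ℤ)) →
      x.1 < -(2 * m' * w' - 1) ∨ 2 * m' * w' - 1 < x.1 := by
    intro x h3 h4
    rw [mem_coe, mem_bx] at h3 h4
    by_contra h5
    push Not at h5
    exact h4 ⟨h5.1, h5.2, by omega, by omega⟩
  cases b
  · unfold et at hx ⊢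
    simp only [Bool.false_eq_true, if_false, add_zero] at hx ⊢
    have e0 := u3 0 (Nat.zero_le _)
    simp only [add_zero] at e0
    rw [← e0] at hx
    rcases x2 (by
      intro h3
      rw [mem_coe, mem_bx] at h3
      omega) with h3 | h3
    · rw [h3]; omega
    · exact key _ h3 t2.out0
  · unfold et at hx ⊢
    simp only [if_true] at hx ⊢
    have e0 := u3 _ le_rfl
    rw [u2] at e0
    have e3 : s1 j + n' j = e1 j := by omega
    rw [e3] at e0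
    rw [← e0] at hx
    have e4 : s2 j + (e2 j - s2 j) = e2 j := by omega
    have h4 := t2.outn
    simp only [e4] at h4 ⊢
    rcases x1 (by
      intro h3
      rw [mem_coe, mem_bx] at h3
      omega) with h3 | h3
    · rw [h3]; omega
    · exact key _ h3 h4

/-- the chain of the side exits -/
theorem side_chain (E : Expl k T) (hk : 1 ≤ k) (hkm : k + 2 ≤ m) {K : ℕ}
    (hΛ : bx m (2 * K + 3) 3 ⊆ Λ) :
    P Λ (SdE k m (2 * K + 1) 1) ≤
      (1 - nc ^ 8) ^ K * P Λ (fun S => ArmEv (· ∈ S) k (bx m 1 1 : Set (ℤ × ℤ))) := by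
  have hm : 1 ≤ m := by omega
  have h0 : (0:ℝ) ≤ 1 - nc ^ 8 := by
    have := pow_le_one₀ (n := 8) nc_pos.le nc_le_one
    linarith
  have key := chain_le (F := Λ) (T := fun s => T (bx m (2 * (s:ℤ) + 1) 1))
    (A := fun s => SdE k m (2 * (s:ℤ) + 1) 1) (K := K) (q := 1 - nc ^ 8) h0
    (fun j _ => E.stop _ _) (fun j _ => E.dec _ _ (fun c n _ => SdX (2 * m * (2 * (j:ℤ) + 1) - 1) k c n))
    (fun j _ S _ hS => sdE_mono hm (by push_cast; omega) hS)
    (fun j hj S _ hS => by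
      have hj' : (j:ℤ) < K := by exact_mod_cast hj
      have := side_step E (m := m) (s := j) hm (by positivity) hk hkm (Λ := Λ)
        ((bx_mono (by omega) (by omega) le_rfl).trans hΛ) S
      rw [show 2 * (j:ℤ) + 3 = 2 * ((j + 1 : ℕ):ℤ) + 1 by push_cast; ring] at this
      exact this)
  refine key.trans (mul_le_mul_of_nonneg_left (P_mono (fun S _ hS => ?_)) (pow_nonneg h0 _))
  obtain ⟨c, n, t, ha, -⟩ := hS
  simp only [Nat.cast_zero, mul_zero, zero_add] at ha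
  exact ⟨c, n, t, ha⟩

end

end Arm57
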