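import Pool.Agent.Helper57.Arm.Ring

/-!
Two near exits: with positive probability the interface closes before it leaves a larger box.
-/

set_option autoImplicit false

namespace Arm57

open Finset CB
open TA hiding Thru
open Pool.Agent.Helper69.RSW (P P_mono P_congr P_nonneg P_le_one P_or_le P_true P_false P_sum
  P_compl)

/-- the box of half-sides `w` and `h` cells -/
noncomputable def bx (m w h : ℤ) : Finset (ℤ × ℤ) := rectF (2 * m * w - 1) (2 * m * h - 1)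

lemma coe_bx (m w h : ℤ) : (bx m w h : Set (ℤ × ℤ)) = rect (2 * m * w - 1) (2 * m * h - 1) :=
  coe_rectF _ _

lemma mem_bx {m w h : ℤ} {x : ℤ × ℤ} : x ∈ bx m w h ↔
    -(2 * m * w - 1) ≤ x.1 ∧ x.1 ≤ 2 * m * w - 1 ∧ -(2 * m * h - 1) ≤ x.2 ∧
      x.2 ≤ 2 * m * h - 1 := by
  rw [← mem_coe, coe_bx]
  exact Iff.rfl

lemma bx_mono {m w h w' h' : ℤ} (hm : 0 ≤ m) (hw : w ≤ w') (hh : h ≤ h') :
    bx m w h ⊆ bx m w' h' := by
  intro x hx
  rw [mem_bx] at hx ⊢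
  have e1 := mul_le_mul_of_nonneg_left hw (by omega : 0 ≤ 2 * m)
  have e2 := mul_le_mul_of_nonneg_left hh (by omega : 0 ≤ 2 * m)
  omega

/-- the cell of a coordinate -/
lemma cell_bounds {m x : ℤ} (hm : 1 ≤ m) : 2 * m * (x / (2 * m)) ≤ x ∧
    x + 1 ≤ 2 * m * (x / (2 * m)) + 2 * m := by
  have h1 := Int.mul_ediv_self_le (x := x) (k := 2 * m) (by omega)
  have h2 := Int.lt_mul_ediv_self_add (x := x) (k := 2 * m) (by omega)
  omega

lemma le_cell {m x a : ℤ} (hm : 1 ≤ m) (h : 2 * m * a ≤ x) : a ≤ x / (2 * m) :=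
  (Int.le_ediv_iff_mul_le (by omega)).2 (by linarith)

lemma cell_le {m x a : ℤ} (hm : 1 ≤ m) (h : x + 1 ≤ 2 * m * (a + 1)) : x / (2 * m) ≤ a := by
  have := (Int.ediv_lt_iff_lt_mul (show 0 < 2 * m by omega)).2
    (show x < (a + 1) * (2 * m) by linarith)
  omega

section
variable {u v : ℤ × ℤ} {c : ℕ → ℤ × ℤ} {n t : ℕ} {r r' : Ray} {S S' : Finset (ℤ × ℤ)}

lemma sq_fst {x y : ℤ × ℤ} (h : Diag x y) :
    ((TA.sq x y).1 ≤ x.1 ∧ x.1 ≤ (TA.sq x y).1 + 1) ∧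
    ((TA.sq x y).1 ≤ y.1 ∧ y.1 ≤ (TA.sq x y).1 + 1) := by
  unfold TA.sq
  unfold Diag at h
  simp only
  omega

lemma Ends.col_at0 {hh : ℤ} {D : Set (ℤ × ℤ)} (he : Ends hh D c n r r') (h : Diag (c 0) (c 1)) :
    r.col ≤ (c 0).1 ∧ (c 0).1 ≤ r.col + 1 := by
  rw [he.col]
  exact (sq_fst h).1

lemma Ends.col_atn {hh : ℤ} {D : Set (ℤ × ℤ)} (he : Ends hh D c n r r')
    (h : Diag (c (n - 1)) (c n)) : r'.col ≤ (c n).1 ∧ (c n).1 ≤ r'.col + 1 := by
  rw [he.col']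
  exact (sq_fst h).2

/-- the geometry of the ring -/
structure RingGeo (m w h x x' lo hi y0 y1 : ℤ) (up : Bool) : Prop where
  p1 : 2 * m * (lo + 1) ≤ 2 * m * x
  p2 : 2 * m * (lo + 1) ≤ 2 * m * x'
  p3 : 2 * m * x + 4 * m ≤ 2 * m * hi
  p4 : 2 * m * x' + 4 * m ≤ 2 * m * hi
  r1 : -(2 * m * w) - 2 * m ≤ 2 * m * lo
  r2 : 2 * m * (hi + 1) ≤ 2 * m * w + 4 * m
  hY : (up = true ∧ 2 * m * y0 = 2 * m * h - 4 * m ∧ 2 * m * (y0 + 1) = 2 * m * h - 2 * m ∧
      2 * m * (y1 + 1) = 2 * m * h + 4 * m ∧ 2 * m * y1 = 2 * m * h + 2 * m) ∨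
      (up = false ∧ 2 * m * y0 = -(2 * m * h) - 4 * m ∧
        2 * m * (y1 + 1) = -(2 * m * h) + 4 * m ∧ 2 * m * (y0 + 1) = -(2 * m * h) - 2 * m ∧
        2 * m * y1 = -(2 * m * h) + 2 * m)

lemma ringGeo {m w h x x' : ℤ} (hm : 1 ≤ m) (up : Bool) (l1 : -w ≤ x) (l2 : -w ≤ x')
    (u1 : x ≤ w - 1) (u2 : x' ≤ w - 1) :
    RingGeo m w h x x' (min x x' - 1) (max x x' + 2) (if up then h - 2 else -h - 2)
      (if up then h + 1 else -h + 1) up := by
  refine ⟨mul_le_mul_of_nonneg_left (by omega) (by omega),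
    mul_le_mul_of_nonneg_left (by omega) (by omega), ?_, ?_, ?_, ?_, ?_⟩
  · have := mul_le_mul_of_nonneg_left (show x + 2 ≤ max x x' + 2 by omega)
      (show 0 ≤ 2 * m by omega)
    have e : 2 * m * (x + 2) = 2 * m * x + 4 * m := by ring
    omega
  · have := mul_le_mul_of_nonneg_left (show x' + 2 ≤ max x x' + 2 by omega)
      (show 0 ≤ 2 * m by omega)
    have e : 2 * m * (x' + 2) = 2 * m * x' + 4 * m := by ring
    omega
  · have := mul_le_mul_of_nonneg_left (show -w - 1 ≤ min x x' - 1 by omega)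
      (show 0 ≤ 2 * m by omega)
    have e : 2 * m * (-w - 1) = -(2 * m * w) - 2 * m := by ring
    omega
  · have := mul_le_mul_of_nonneg_left (show max x x' + 2 + 1 ≤ w + 2 by omega)
      (show 0 ≤ 2 * m by omega)
    have e : 2 * m * (w + 2) = 2 * m * w + 4 * m := by ring
    omega
  · cases up
    · right
      simp only [Bool.false_eq_true, if_false]
      refine ⟨trivial, by ring, by ring, by ring, by ring⟩
    · left
      simp only [if_true]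
      refine ⟨trivial, by ring, by ring, by ring, by ring⟩

lemma reg_partU {m w h x x' lo hi y0 y1 : ℤ} {up : Bool} (hm : 1 ≤ m)
    (G : RingGeo m w h x x' lo hi y0 y1 up) {v : ℤ × ℤ} (hv : v ∈ Reg m (partU lo hi y0 y1 up)) :
    (v.1 + 1 ≤ 2 * m * (lo + 1) ∨ 2 * m * hi ≤ v.1 ∨
      (up = true ∧ v.2 + 1 ≤ 2 * m * h - 2 * m) ∨ (up = false ∧ -(2 * m * h) + 2 * m ≤ v.2)) ∧
    2 * m * lo ≤ v.1 ∧ v.1 + 1 ≤ 2 * m * (hi + 1) ∧ 2 * m * y0 ≤ v.2 ∧
      v.2 + 1 ≤ 2 * m * (y1 + 1) := by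
  have hb := reg_bounds hm (x0 := lo) (x1 := hi) (y0 := y0) (y1 := y1) (fun c hc => hc.1) hv
  refine ⟨?_, hb⟩
  obtain ⟨cc, ⟨hc1, hc2⟩, k1, k2, k3, k4⟩ := hv
  rcases hc2 with e | e | e
  · left
    rw [e] at k2
    omega
  · right; left
    rw [e] at k1
    exact k1
  · right; right
    rcases G.hY with ⟨z1, z2, z3, z4, z5⟩ | ⟨z1, z2, z3, z4, z5⟩
    · left
      rw [z1] at e
      simp only [if_true] at e
      rw [e, z3] at k4
      exact ⟨z1, by omega⟩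
    · right
      rw [z1] at e
      simp only [Bool.false_eq_true, if_false] at e
      rw [e, z5] at k3
      exact ⟨z1, k3⟩

lemma partU_off {m w h x x' lo hi y0 y1 : ℤ} {up : Bool} (hm : 1 ≤ m)
    (G : RingGeo m w h x x' lo hi y0 y1 up) {q : Ray} (hup : q.up = up)
    (hq : q.y = if up then 2 * m * h - 1 + 1 else -(2 * m * h - 1) - 1)
    (hc1 : 2 * m * (lo + 1) ≤ q.col) (hc2 : q.col + 2 ≤ 2 * m * hi) {v : ℤ × ℤ}
    (hv : v ∈ Reg m (partU lo hi y0 y1 up)) : q.Off v ∧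
    ∀ e : ℤ × ℤ, q.col ≤ e.1 → e.1 ≤ q.col + 1 → e.2 = q.y → e ≠ v := by
  obtain ⟨k1, -⟩ := reg_partU hm G hv
  unfold Ray.Off Ray.On
  rw [hup]
  rcases G.hY with ⟨z1, -⟩ | ⟨z1, -⟩
  · rw [z1] at k1 hq ⊢
    simp only [if_true, true_and, false_and, or_false, reduceCtorEq] at k1 hq ⊢
    refine ⟨⟨?_, ?_, ?_, ?_⟩, ?_⟩
    · omega
    · omega
    · omega
    · omega
    · rintro e e1 e2 e3 rfl
      omega
  · rw [z1] at k1 hq ⊢
    simp only [Bool.false_eq_true, if_false, true_and, false_and, false_or] at k1 hq ⊢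
    refine ⟨⟨?_, ?_, ?_, ?_⟩, ?_⟩
    · omega
    · omega
    · omega
    · omega
    · rintro e e1 e2 e3 rfl
      omega

/-- the deterministic part: a net on the ring closes the interface -/
theorem near_det {m w h : ℤ} (hm : 1 ≤ m) (hh : 3 ≤ h) (hw : 1 ≤ w)
    (hp : Path (· ∈ S) (bx m w h : Set (ℤ × ℤ)) u v c n t)
    (he : Ends (2 * m * h - 1) (bx m w h : Set (ℤ × ℤ)) c n r r')
    (h0 : -(2 * m * w - 1) ≤ (c 0).1 ∧ (c 0).1 ≤ 2 * m * w - 1)
    (h1 : -(2 * m * w - 1) ≤ (c n).1 ∧ (c n).1 ≤ 2 * m * w - 1)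
    (hsame : r.up = r'.up) {κ : ℤ} (hκ : κ = min r.col r'.col % 2)
    (hnet : Net κ m (ringC (min (r.col / (2 * m)) (r'.col / (2 * m)) - 1)
      (max (r.col / (2 * m)) (r'.col / (2 * m)) + 2) (if r'.up then h - 2 else -h - 2)
      (if r'.up then h + 1 else -h + 1) : Set (ℤ × ℤ)) (S' : Set (ℤ × ℤ))) :
    ¬ TA.Thru (· ∈ mix (expl (bx m w h) u v S) S S') (bx m (w + 3) (h + 3) : Set (ℤ × ℤ)) u v := by
  have hκ' : κ = 0 ∨ κ = 1 := by omega
  obtain ⟨d1, d2⟩ := cell_bounds (x := r.col) hm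
  obtain ⟨d3, d4⟩ := cell_bounds (x := r'.col) hm
  have hpos := hp.1.pos
  have hc0 := Ends.col_at0 he hp.1.diag
  have hcn := Ends.col_atn he (by
    have := hp.1.diags (n - 1) (by omega)
    rwa [Nat.sub_add_cancel (by omega)] at this)
  have l1 : -w ≤ r.col / (2 * m) := le_cell hm (by
    have : 2 * m * -w = -(2 * m * w) := by ring
    omega)
  have l2 : -w ≤ r'.col / (2 * m) := le_cell hm (by
    have : 2 * m * -w = -(2 * m * w) := by ring
    omega)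
  have u1 : r.col / (2 * m) ≤ w - 1 := cell_le hm (by
    have : 2 * m * (w - 1 + 1) = 2 * m * w := by ring
    omega)
  have u2 : r'.col / (2 * m) ≤ w - 1 := cell_le hm (by
    have : 2 * m * (w - 1 + 1) = 2 * m * w := by ring
    omega)
  generalize hx : r.col / (2 * m) = x at *
  generalize hx' : r'.col / (2 * m) = x' at *
  have G := ringGeo (h := h) hm r'.up l1 l2 u1 u2
  obtain ⟨a, b, ha, hb, hU, hT⟩ := ring_conn hκ' hm (by omega) (by split_ifs <;> omega) r'.up hnet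
  generalize (min x x' - 1) = lo at *
  generalize (max x x' + 2) = hi at *
  generalize (if r'.up then h - 2 else -h - 2) = y0 at *
  generalize (if r'.up then h + 1 else -h + 1) = y1 at *
  have ha' := ha.mem hκ'
  have hb' := hb.mem hκ'
  clear ha hb hnet l1 l2 u1 u2 hx hx'
  simp only at ha' hb'
  obtain ⟨a1, a2, a3, a4, a5, a6⟩ := ha'
  obtain ⟨b1, b2, b3, b4, b5, b6⟩ := hb'
  have hhm : 2 * m * 3 ≤ 2 * m * h := mul_le_mul_of_nonneg_left hh (by omega)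
  have hwm : 2 * m * 1 ≤ 2 * m * w := mul_le_mul_of_nonneg_left hw (by omega)
  have hey := he.y
  have hey' := he.y'
  have he0 := he.e
  have hen := he.e'
  obtain ⟨p1, p2, p3, p4, r1, r2, -⟩ := id G
  have f1 : 2 * m * (w + 3) = 2 * m * w + 6 * m := by ring
  have f2 : 2 * m * (h + 3) = 2 * m * h + 6 * m := by ring
  have hin : ∀ v : ℤ × ℤ, -(2 * m * w) - 2 * m ≤ v.1 → v.1 + 1 ≤ 2 * m * w + 4 * m →
      -(2 * m * h) - 4 * m ≤ v.2 → v.2 + 1 ≤ 2 * m * h + 4 * m →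
      v ∈ rect (2 * m * (w + 3) - 1) (2 * m * (h + 3) - 1) := by
    clear * - hm f1 f2
    intro v v1 v2 v3 v4
    show _ ∧ _ ∧ _ ∧ _
    rw [f1, f2]
    omega
  have hpar : (a.1 + a.2) % 2 = 0 := by
    clear * - a5 a6
    omega
  have hcol : (min r.col r'.col + a.1) % 2 = 0 := by
    clear * - a5 hκ
    omega
  have hab : a.1 ≤ min r.col r'.col ∧ max r.col r'.col < b.1 := by
    clear * - a2 b1 p1 p2 p3 p4 d1 d2 d3 d4 hm
    omega
  have hyd : ∀ y : ℤ, 2 * m * (if r'.up then y1 else y0) ≤ y →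
      y + 1 ≤ 2 * m * ((if r'.up then y1 else y0) + 1) →
      Byd r'.up (2 * m * h - 1 + 2) y ∧ Byd2 r'.up (2 * m * h - 1) y ∧
      -(2 * m * h) - 4 * m ≤ y ∧ y + 1 ≤ 2 * m * h + 4 * m := by
    clear * - G hm hhm
    intro y hy1 hy2
    unfold Byd Byd2
    rcases G.hY with ⟨z1, z2, z3, z4, z5⟩ | ⟨z1, z2, z3, z4, z5⟩ <;>
    · rw [z1] at hy1 hy2 ⊢
      simp only [Bool.false_eq_true, if_false, if_true] at hy1 hy2 ⊢
      omega
  have hyU : ∀ y : ℤ, 2 * m * y0 ≤ y → y + 1 ≤ 2 * m * (y1 + 1) →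
      -(2 * m * h) - 4 * m ≤ y ∧ y + 1 ≤ 2 * m * h + 4 * m := by
    clear * - G hm hhm
    intro y hy1 hy2
    rcases G.hY with ⟨z1, z2, z3, z4, z5⟩ | ⟨z1, z2, z3, z4, z5⟩ <;> omega
  have hcn2 : c n ∈ rect (2 * m * (w + 3) - 1) (2 * m * (h + 3) - 1) := by
    refine hin _ (by clear * - h1 hm; omega) (by clear * - h1 hm; omega) ?_ ?_ <;>
    · clear * - hen hey' hm hhm
      split_ifs at hey' <;> omega
  have hWH : rect (2 * m * w - 1) (2 * m * h - 1) ⊆ rect (2 * m * (w + 3) - 1)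
      (2 * m * (h + 3) - 1) := by
    rw [← coe_bx, ← coe_bx]
    exact_mod_cast bx_mono (by omega) (by omega) (by omega)
  rw [coe_bx m (w + 3)]
  refine near_mix (D := bx m w h) (R := Reg m (partU lo hi y0 y1 r'.up))
    (Rt := Reg m (partT lo hi y0 y1 r'.up)) (hh := 2 * m * h - 1) hp
    he hsame ?_ ?_ hU hT hpar (hyd _ a3 (by clear * - a4; omega)).1
    (hyd _ b3 (by clear * - b4; omega)).1 hab.1 hab.2 hcol
    (by rw [coe_bx]; exact hWH) ?_ ?_ hcn2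
  · intro v hv
    obtain ⟨k1, k2⟩ := partU_off hm G (q := r) hsame (by rw [hey, hsame])
      (by clear * - p1 d1; omega) (by clear * - p3 d2 hm; omega) hv
    obtain ⟨k3, k4⟩ := partU_off hm G (q := r') rfl hey' (by clear * - p2 d3; omega)
      (by clear * - p4 d4 hm; omega) hv
    exact ⟨k1, k3, k2 _ hc0.1 hc0.2 he0, k4 _ hcn.1 hcn.2 hen⟩
  · intro v hv
    have hb2 := reg_bounds hm (A := partT lo hi y0 y1 r'.up) (x0 := lo) (x1 := hi)
      (y0 := if r'.up then y1 else y0) (y1 := if r'.up then y1 else y0)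
      (fun c hc => ⟨hc.1.1, hc.1.2, hc.2.ge, hc.2.le⟩) hv
    exact (hyd _ hb2.2.2.1 hb2.2.2.2).2.1
  · intro v hv
    obtain ⟨-, k2, k3, k4, k5⟩ := reg_partU hm G hv
    exact hin v (by clear * - k2 r1; omega) (by clear * - k3 r2; omega) (hyU _ k4 k5).1
      (hyU _ k4 k5).2
  · intro v hv
    have hb2 := reg_bounds hm (A := partT lo hi y0 y1 r'.up) (x0 := lo) (x1 := hi)
      (y0 := if r'.up then y1 else y0) (y1 := if r'.up then y1 else y0)
      (fun c hc => ⟨hc.1.1, hc.1.2, hc.2.ge, hc.2.le⟩) hv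
    obtain ⟨k2, k3, k4, k5⟩ := hb2
    exact hin v (by clear * - k2 r1; omega) (by clear * - k3 r2; omega) (hyd _ k4 k5).2.2.1
      (hyd _ k4 k5).2.2.2

end

end Arm57
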