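import Pool.Agent.Helper57.Arm.Near
import Pool.Agent.Helper47.Arms.KNear

/-!
Two near exits of `2k` interface ends: the ring.
-/

set_option autoImplicit false

namespace Arm57

open Finset CB
open TA hiding Thru
open Pool.Agent.Helper69.RSW (P P_mono P_congr P_nonneg P_le_one P_or_le P_true P_false P_sum
  P_compl)

/-- a free column -/
lemma exists_free (B : Finset ℤ) (a : ℤ) {L : ℕ} (hL : #B < L) :
    ∃ x : ℤ, a ≤ x ∧ x < a + L ∧ x ∉ B := by
  have h : #B < #(Ico a (a + L)) := by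
    rw [Int.card_Ico]
    simpa using hL
  obtain ⟨x, hx, hx'⟩ := exists_mem_notMem_of_card_lt_card h
  rw [mem_Ico] at hx
  exact ⟨x, hx.1, hx.2, hx'⟩

/-- the geometry of the ring, general version -/
structure RingGeo' (m w h lo hi y0 y1 : ℤ) (G : ℤ) (up : Bool) : Prop where
  r1 : -(2 * m * (w + G) - 1) ≤ 2 * m * lo
  r2 : 2 * m * (hi + 1) ≤ 2 * m * (w + G)
  hY : (up = true ∧ 2 * m * y0 = 2 * m * h - 4 * m ∧ 2 * m * (y0 + 1) = 2 * m * h - 2 * m ∧
      2 * m * (y1 + 1) = 2 * m * h + 4 * m ∧ 2 * m * y1 = 2 * m * h + 2 * m) ∨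
      (up = false ∧ 2 * m * y0 = -(2 * m * h) - 4 * m ∧
        2 * m * (y1 + 1) = -(2 * m * h) + 4 * m ∧ 2 * m * (y0 + 1) = -(2 * m * h) - 2 * m ∧
        2 * m * y1 = -(2 * m * h) + 2 * m)

lemma ringGeo' {m w h lo hi G : ℤ} (hm : 1 ≤ m) (up : Bool) (l1 : -w - G + 1 ≤ lo)
    (u1 : hi + 1 ≤ w + G) :
    RingGeo' m w h lo hi (if up then h - 2 else -h - 2) (if up then h + 1 else -h + 1) G up := by
  refine ⟨?_, mul_le_mul_of_nonneg_left (by omega) (by omega), ?_⟩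
  · have := mul_le_mul_of_nonneg_left l1 (show 0 ≤ 2 * m by omega)
    have e : 2 * m * (-w - G + 1) = -(2 * m * (w + G)) + 2 * m := by ring
    omega
  · cases up
    · right
      simp only [Bool.false_eq_true, if_false]
      refine ⟨trivial, by ring, by ring, by ring, by ring⟩
    · left
      simp only [if_true]
      refine ⟨trivial, by ring, by ring, by ring, by ring⟩

lemma reg_partU' {m w h lo hi y0 y1 G : ℤ} {up : Bool} (hm : 1 ≤ m)
    (Gg : RingGeo' m w h lo hi y0 y1 G up) {v : ℤ × ℤ} (hv : v ∈ Reg m (partU lo hi y0 y1 up)) :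
    ((v.1 + 1 ≤ 2 * m * (lo + 1)) ∨ 2 * m * hi ≤ v.1 ∨
      (up = true ∧ v.2 + 1 ≤ 2 * m * h - 2 * m) ∨ (up = false ∧ -(2 * m * h) + 2 * m ≤ v.2)) ∧
    2 * m * lo ≤ v.1 ∧ v.1 + 1 ≤ 2 * m * (hi + 1) ∧ 2 * m * y0 ≤ v.2 ∧
      v.2 + 1 ≤ 2 * m * (y1 + 1) := by
  have hb := reg_bounds hm (x0 := lo) (x1 := hi) (y0 := y0) (y1 := y1) (fun c hc => hc.1) hv
  refine ⟨?_, hb⟩
  obtain ⟨cc, ⟨hc1, hc2⟩, k1, k2, k3, k4⟩ := hv
  rcases hc2 with e | e | e
  · left
    rw [e] at k2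
    omega
  · right; left
    rw [e] at k1
    exact k1
  · right; right
    rcases Gg.hY with ⟨z1, z2, z3, z4, z5⟩ | ⟨z1, z2, z3, z4, z5⟩
    · left
      rw [z1] at e
      simp only [if_true] at e
      rw [e, z3] at k4
      exact ⟨z1, by omega⟩
    · right
      rw [z1] at e
      simp only [Bool.false_eq_true, if_false] at e
      rw [e, z5] at k3
      exact ⟨z1, k3⟩

/-- the lower part of the ring avoids the columns of an exit -/
lemma partU_off' {m w h lo hi y0 y1 G : ℤ} {up : Bool} (hm : 1 ≤ m) (hh : 3 ≤ h)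
    (Gg : RingGeo' m w h lo hi y0 y1 G up) {q : Ray}
    (hq : q.y = if q.up then 2 * m * h - 1 + 1 else -(2 * m * h - 1) - 1)
    (hc : q.up = up → (q.col + 2 ≤ 2 * m * lo ∨ (2 * m * (lo + 1) ≤ q.col ∧ q.col + 2 ≤ 2 * m * hi)
      ∨ 2 * m * (hi + 1) ≤ q.col)) {v : ℤ × ℤ}
    (hv : v ∈ Reg m (partU lo hi y0 y1 up)) : q.Off v ∧
    ∀ e : ℤ × ℤ, q.col ≤ e.1 → e.1 ≤ q.col + 1 → e.2 = q.y → e ≠ v := by
  obtain ⟨k1, k2, k3, k4, k5⟩ := reg_partU' hm Gg hv
  have hhm : 2 * m * 3 ≤ 2 * m * h := mul_le_mul_of_nonneg_left hh (by omega)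
  have hY := Gg.hY
  clear hv Gg
  unfold Ray.Off Ray.On
  by_cases hup : q.up = up
  · have hc' := hc hup
    rw [hup] at hq ⊢
    clear hc hup
    rcases hY with ⟨z1, -⟩ | ⟨z1, -⟩
    · rw [z1] at k1 hq ⊢
      simp only [if_true, true_and, false_and, or_false, reduceCtorEq] at k1 hq ⊢
      refine ⟨⟨?_, ?_, ?_, ?_⟩, ?_⟩
      · omega
      · omega
      · omega
      · omega
      · rintro e e1 e2 e3 rfl
        omega
    · rw [z1] at k1 hq ⊢
      simp only [Bool.false_eq_true, if_false, true_and, false_and, false_or] at k1 hq ⊢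
      refine ⟨⟨?_, ?_, ?_, ?_⟩, ?_⟩
      · omega
      · omega
      · omega
      · omega
      · rintro e e1 e2 e3 rfl
        omega
  · clear hc k1 k2 k3
    rcases hY with ⟨z1, z2, z3, z4, z5⟩ | ⟨z1, z2, z3, z4, z5⟩
    · have hup' : q.up = false := by
        rw [z1] at hup
        simpa using hup
      rw [hup'] at hq ⊢
      simp only [Bool.false_eq_true, if_false] at hq ⊢
      refine ⟨⟨?_, ?_, ?_, ?_⟩, ?_⟩
      · omega
      · omega
      · omega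
      · omega
      · rintro e e1 e2 e3 rfl
        omega
    · have hup' : q.up = true := by
        rw [z1] at hup
        simpa using hup
      rw [hup'] at hq ⊢
      simp only [if_true] at hq ⊢
      refine ⟨⟨?_, ?_, ?_, ?_⟩, ?_⟩
      · omega
      · omega
      · omega
      · omega
      · rintro e e1 e2 e3 rfl
        omega

section
variable {k : ℤ} {c : ℤ → ℕ → ℤ × ℤ} {n t : ℤ → ℕ} {r r' : ℤ → Ray} {S S' S'' : Finset (ℤ × ℤ)}

/-- the exit tile of an end -/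
def et (c : ℤ → ℕ → ℤ × ℤ) (n : ℤ → ℕ) (j : ℤ) (b : Bool) : ℤ × ℤ := if b then c j (n j) else c j 0

/-- position of the exit of the end `(j, b)` -/
lemma ArmsE.exit {M : ℤ × ℤ → Prop} {D : Set (ℤ × ℤ)} {hh : ℤ} (ha : ArmsE M k D c n t hh r r')
    {j : ℤ} (h1 : 1 ≤ j) (h2 : j ≤ k) (b : Bool) :
    (er r r' j b).col ≤ (et c n j b).1 ∧ (et c n j b).1 ≤ (er r r' j b).col + 1 ∧
    (et c n j b).2 = (er r r' j b).y ∧
    (er r r' j b).y = if (er r r' j b).up then hh + 1 else -hh - 1 := by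
  have he := ha.ends j h1 h2
  have ht := ha.traj j h1 h2
  have hpos := ht.pos
  cases b
  · have := Ends.col_at0 he ht.diag
    exact ⟨this.1, this.2, he.e, he.y⟩
  · have := Ends.col_atn he (by
      have := ht.diags (n j - 1) (by omega)
      rwa [Nat.sub_add_cancel (by omega)] at this)
    exact ⟨this.1, this.2, he.e', he.y'⟩

/-- **the ring kills the arm event of the larger box** -/
theorem nearK_det {m w h : ℤ} (hm : 1 ≤ m) (hk : 1 ≤ k) (hh : 3 ≤ h)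
    (ha : ArmsE (· ∈ S) k (bx m w h : Set (ℤ × ℤ)) c n t (2 * m * h - 1) r r')
    (hx : ∀ j, 1 ≤ j → j ≤ k → ∀ b, -(2 * m * w - 1) ≤ (et c n j b).1 ∧
      (et c n j b).1 ≤ 2 * m * w - 1) {up : Bool} {j0 j1 : ℤ} {b0 b1 : Bool}
    (h01 : (j0, b0) ≠ (j1, b1)) (h0 : 1 ≤ j0 ∧ j0 ≤ k) (h1 : 1 ≤ j1 ∧ j1 ≤ k)
    (hu0 : (er r r' j0 b0).up = up) (hu1 : (er r r' j1 b1).up = up)
    (hn1 : (er r r' j0 b0).col / (2 * m) ≤ (er r r' j1 b1).col / (2 * m))
    (hn2 : (er r r' j1 b1).col / (2 * m) ≤ (er r r' j0 b0).col / (2 * m) + 5) :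
    ∃ lo hi κ : ℤ, (κ = 0 ∨ κ = 1) ∧ lo ≤ hi ∧ hi ≤ lo + (8 * k + 10) ∧ -w - (4 * k + 2) ≤ lo ∧
      hi ≤ w + (4 * k + 3) ∧ ∀ S' S'' : Finset (ℤ × ℤ),
      (∀ v ∈ visited k c n, (v ∈ S'' ↔ v ∈ S)) → (∀ v, v ∉ visited k c n → (v ∈ S'' ↔ v ∈ S')) →
      Net κ m (ringC lo hi (if up then h - 2 else -h - 2) (if up then h + 1 else -h + 1) :
        Set (ℤ × ℤ)) (S' : Set (ℤ × ℤ)) →
      ¬ ArmEv (· ∈ S'') k (bx m (w + (4 * k + 4)) (h + 3) : Set (ℤ × ℤ)) := by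
  classical
  -- the set of the ends
  obtain ⟨I, hI⟩ : ∃ I : Finset (ℤ × Bool), I = Icc 1 k ×ˢ univ := ⟨_, rfl⟩
  have memI : ∀ j b, (j, b) ∈ I ↔ 1 ≤ j ∧ j ≤ k := by
    intro j b
    rw [hI, mem_product, mem_Icc]
    simp
  obtain ⟨kn, hkn⟩ : ∃ kn : ℕ, k = kn := ⟨k.toNat, by omega⟩
  have cardI : #I = 2 * kn := by
    rw [hI, card_product, Int.card_Icc, card_univ, Fintype.card_bool, hkn]
    omega
  -- the cells of the exits
  obtain ⟨X, hX⟩ : ∃ X : ℤ × Bool → ℤ, X = fun p => (er r r' p.1 p.2).col / (2 * m) := ⟨_, rfl⟩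
  have hXb : ∀ p : ℤ × Bool, 2 * m * X p ≤ (er r r' p.1 p.2).col ∧
      (er r r' p.1 p.2).col + 1 ≤ 2 * m * X p + 2 * m := by
    intro p
    rw [hX]
    exact cell_bounds hm
  have hXw : ∀ p ∈ I, -w ≤ X p ∧ X p ≤ w - 1 := by
    rintro ⟨j, b⟩ hp
    rw [memI] at hp
    obtain ⟨e1, e2, -, -⟩ := ArmsE.exit ha hp.1 hp.2 b
    obtain ⟨e3, e4⟩ := hx j hp.1 hp.2 b
    rw [hX]
    constructor
    · exact le_cell hm (by
        have : 2 * m * -w = -(2 * m * w) := by ring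
        simp only
        omega)
    · exact cell_le hm (by
        have : 2 * m * (w - 1 + 1) = 2 * m * w := by ring
        simp only
        omega)
  obtain ⟨B, hB⟩ : ∃ B : Finset ℤ, B = I.image X ∪ I.image (fun p => X p + 1) := ⟨_, rfl⟩
  have cardB : #B < 4 * kn + 1 := by
    rw [hB]
    have e1 := card_union_le (I.image X) (I.image (fun p => X p + 1))
    have e2 := card_image_le (s := I) (f := X)
    have e3 := card_image_le (s := I) (f := fun p => X p + 1)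
    omega
  have hBf : ∀ x, x ∉ B → ∀ p ∈ I, X p ≠ x ∧ X p + 1 ≠ x := by
    intro x hx' p hp
    rw [hB, mem_union, mem_image, mem_image] at hx'
    push Not at hx'
    exact ⟨hx'.1 p hp, hx'.2 p hp⟩
  have hp0 : ((j0, b0) : ℤ × Bool) ∈ I := (memI _ _).2 h0
  have hp1 : ((j1, b1) : ℤ × Bool) ∈ I := (memI _ _).2 h1
  have hn1' : X (j0, b0) ≤ X (j1, b1) := by rw [hX]; exact hn1
  have hn2' : X (j1, b1) ≤ X (j0, b0) + 5 := by rw [hX]; exact hn2
  obtain ⟨lo, lo1, lo2, lo3⟩ := exists_free B (X (j0, b0) - (4 * kn + 1)) cardB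
  obtain ⟨hi, hi1, hi2, hi3⟩ := exists_free B (X (j1, b1) + 2) cardB
  have lof := hBf lo lo3
  have hif := hBf hi hi3
  have w0 := hXw _ hp0
  have w1 := hXw _ hp1
  -- the leftmost exit inside the ring
  obtain ⟨J, hJ⟩ : ∃ J : Finset (ℤ × Bool), J = I.filter (fun p => (er r r' p.1 p.2).up = up ∧
    lo ≤ X p) := ⟨_, rfl⟩
  have hJ0 : ((j0, b0) : ℤ × Bool) ∈ J := by
    rw [hJ, mem_filter]
    exact ⟨hp0, hu0, by push_cast at lo2; omega⟩
  obtain ⟨⟨j2, b2⟩, hm2, hmin⟩ := J.exists_min_image (fun p => (er r r' p.1 p.2).col) ⟨_, hJ0⟩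
  have hm2' := hm2
  rw [hJ, mem_filter] at hm2'
  obtain ⟨hm3, hm4, hm5⟩ := hm2'
  simp only at hm4
  have hj2 := (memI _ _).1 hm3
  -- another exit inside the ring
  obtain ⟨j3, b3, hne, hj3, hu3, hX3⟩ : ∃ j3 b3, (j2, b2) ≠ (j3, b3) ∧ (1 ≤ j3 ∧ j3 ≤ k) ∧
      (er r r' j3 b3).up = up ∧ X (j0, b0) ≤ X (j3, b3) ∧ X (j3, b3) ≤ X (j1, b1) := by
    by_cases he : (j2, b2) = (j0, b0)
    · exact ⟨j1, b1, by rw [he]; exact h01, h1, hu1, hn1', le_rfl⟩
    · exact ⟨j0, b0, he, h0, hu0, le_rfl, hn1'⟩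
  refine ⟨lo, hi, (er r r' j2 b2).col % 2, by omega, by push_cast at lo2; omega,
    by push_cast at *; omega, by push_cast at *; omega, by push_cast at *; omega, ?_⟩
  intro S' S'' hin hout hnet
  have hκ' : (er r r' j2 b2).col % 2 = 0 ∨ (er r r' j2 b2).col % 2 = 1 := by omega
  have Gg := ringGeo' (m := m) (w := w) (h := h) (lo := lo) (hi := hi) (G := 4 * k + 4) hm up
    (by push_cast at *; omega) (by push_cast at *; omega)
  obtain ⟨a, b, ha', hb', hU, hT⟩ := ring_conn hκ' hm (by push_cast at lo2; omega)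
    (by split_ifs <;> omega) up hnet
  generalize (if up then h - 2 else -h - 2) = y0 at *
  generalize (if up then h + 1 else -h + 1) = y1 at *
  have ha2 := ha'.mem hκ'
  have hb2 := hb'.mem hκ'
  clear ha' hb' hnet
  simp only at ha2 hb2
  obtain ⟨a1, a2, a3, a4, a5, a6⟩ := ha2
  obtain ⟨c1, c2, c3, c4, c5, c6⟩ := hb2
  have hhm : 2 * m * 3 ≤ 2 * m * h := mul_le_mul_of_nonneg_left hh (by omega)
  have hmul : ∀ x y : ℤ, x ≤ y → 2 * m * x ≤ 2 * m * y := fun x y hxy =>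
    mul_le_mul_of_nonneg_left hxy (by omega)
  have f2 : 2 * m * (h + 3) = 2 * m * h + 6 * m := by ring
  -- columns
  have hcase : ∀ p ∈ I, (er r r' p.1 p.2).col + 2 ≤ 2 * m * lo ∨
      (2 * m * (lo + 1) ≤ (er r r' p.1 p.2).col ∧ (er r r' p.1 p.2).col + 2 ≤ 2 * m * hi) ∨
      2 * m * (hi + 1) ≤ (er r r' p.1 p.2).col := by
    intro p hp
    obtain ⟨e1, e2⟩ := hXb p
    obtain ⟨e3, e4⟩ := lof p hp
    obtain ⟨e5, e6⟩ := hif p hp
    rcases lt_trichotomy (X p) lo with h1' | h1' | h1'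
    · left
      have h2' : X p + 2 ≤ lo := by omega
      have e := hmul _ _ h2'
      have e7 : 2 * m * (X p + 2) = 2 * m * X p + 4 * m := by ring
      clear * - e e7 e2 hm
      omega
    · exact absurd h1' e3
    · right
      rcases lt_trichotomy (X p) hi with h3' | h3' | h3'
      · left
        have h2' : X p + 2 ≤ hi := by omega
        have e := hmul _ _ h2'
        have e7 : 2 * m * (X p + 2) = 2 * m * X p + 4 * m := by ring
        have e8 := hmul _ _ (show lo + 1 ≤ X p by omega)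
        clear * - e e7 e2 e1 e8 hm
        omega
      · exact absurd h3' e5
      · right
        have e8 := hmul _ _ (show hi + 1 ≤ X p by omega)
        clear * - e8 e1
        omega
  have hcol0 : ∀ p ∈ I, lo ≤ X p → 2 * m * (lo + 1) ≤ (er r r' p.1 p.2).col := by
    intro p hp hl
    obtain ⟨e1, e2⟩ := hXb p
    obtain ⟨e3, e4⟩ := lof p hp
    have e8 := hmul _ _ (show lo + 1 ≤ X p by omega)
    clear * - e8 e1
    omega
  have hcol1 : ∀ p ∈ I, X p ≤ X (j1, b1) → (er r r' p.1 p.2).col + 2 ≤ 2 * m * hi := by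
    intro p hp hl
    obtain ⟨e1, e2⟩ := hXb p
    have e := hmul _ _ (show X p + 2 ≤ hi by omega)
    have e7 : 2 * m * (X p + 2) = 2 * m * X p + 4 * m := by ring
    clear * - e e7 e2 hm
    omega
  have hyd : ∀ y : ℤ, 2 * m * (if up then y1 else y0) ≤ y →
      y + 1 ≤ 2 * m * ((if up then y1 else y0) + 1) →
      Byd up (2 * m * h - 1 + 2) y ∧ Byd2 up (2 * m * h - 1) y ∧
      -(2 * m * h) - 4 * m ≤ y ∧ y + 1 ≤ 2 * m * h + 4 * m := by
    clear * - Gg hm hhm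
    intro y hy1 hy2
    unfold Byd Byd2
    rcases Gg.hY with ⟨z1, z2, z3, z4, z5⟩ | ⟨z1, z2, z3, z4, z5⟩ <;>
    · rw [z1] at hy1 hy2 ⊢
      simp only [Bool.false_eq_true, if_false, if_true] at hy1 hy2 ⊢
      omega
  have hyU : ∀ y : ℤ, 2 * m * y0 ≤ y → y + 1 ≤ 2 * m * (y1 + 1) →
      -(2 * m * h) - 4 * m ≤ y ∧ y + 1 ≤ 2 * m * h + 4 * m := by
    clear * - Gg hm hhm
    intro y hy1 hy2
    rcases Gg.hY with ⟨z1, z2, z3, z4, z5⟩ | ⟨z1, z2, z3, z4, z5⟩ <;> omega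
  have hin' : ∀ v : ℤ × ℤ, -(2 * m * (w + (4 * k + 4)) - 1) ≤ v.1 →
      v.1 + 1 ≤ 2 * m * (w + (4 * k + 4)) → -(2 * m * h) - 4 * m ≤ v.2 →
      v.2 + 1 ≤ 2 * m * h + 4 * m →
      v ∈ rect (2 * m * (w + (4 * k + 4)) - 1) (2 * m * (h + 3) - 1) := by
    clear * - hm f2
    intro v v1 v2 v3 v4
    show _ ∧ _ ∧ _ ∧ _
    rw [f2]
    omega
  have hext : ∀ j, 1 ≤ j → j ≤ k → ∀ b', et c n j b' ∈
      rect (2 * m * (w + (4 * k + 4)) - 1) (2 * m * (h + 3) - 1) := by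
    intro j q1 q2 b'
    obtain ⟨e1, e2, e3, e4⟩ := ArmsE.exit ha q1 q2 b'
    obtain ⟨e5, e6⟩ := hx j q1 q2 b'
    have e7 := hmul w (w + (4 * k + 4)) (by omega)
    refine hin' _ (by clear * - e5 e7; omega) (by clear * - e6 e7; omega) ?_ ?_ <;>
    · rw [e3]
      clear * - e4 hm hhm
      split_ifs at e4 <;> omega
  have hWH : rect (2 * m * w - 1) (2 * m * h - 1) ⊆ rect (2 * m * (w + (4 * k + 4)) - 1)
      (2 * m * (h + 3) - 1) := by
    rw [← coe_bx, ← coe_bx]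
    exact_mod_cast bx_mono (by omega) (by omega) (by omega)
  rw [coe_bx m (w + (4 * k + 4))]
  refine near_stmt (k := k) (D := (bx m w h : Set (ℤ × ℤ))) (hh := 2 * m * h - 1)
    (M := (· ∈ S)) (M' := (· ∈ S')) (M'' := (· ∈ S'')) ha hin
    (R := Reg m (partU lo hi y0 y1 up)) (Rt := Reg m (partT lo hi y0 y1 up)) ?_
    (fun v _ hv => hout v hv) (up := up) ?_ ?_ hU hT (by clear * - a5 a6; omega)
    (hyd _ a3 (by clear * - a4; omega)).1 (hyd _ c3 (by clear * - c4; omega)).1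
    (j0 := j2) (j1 := j3) (b0 := b2) (b1 := b3) hne hj2 hj3 hm4 hu3 ?_ ?_ ?_
    (by clear * - a5; omega) (by rw [coe_bx]; exact hWH) ?_ ?_
    (fun j q1 q2 => ⟨hext j q1 q2 false, hext j q1 q2 true⟩)
  · intro v hv j q1 q2
    have ex0 := ArmsE.exit ha q1 q2 false
    have ex1 := ArmsE.exit ha q1 q2 true
    obtain ⟨k1, k2⟩ := partU_off' hm hh Gg (q := r j) ex0.2.2.2
      (fun _ => hcase (j, false) ((memI _ _).2 ⟨q1, q2⟩)) hv
    obtain ⟨k3, k4⟩ := partU_off' hm hh Gg (q := r' j) ex1.2.2.2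
      (fun _ => hcase (j, true) ((memI _ _).2 ⟨q1, q2⟩)) hv
    exact ⟨k1, k3, k2 _ ex0.1 ex0.2.1 ex0.2.2.1, k4 _ ex1.1 ex1.2.1 ex1.2.2.1⟩
  · intro v hv
    have hb2 := reg_bounds hm (A := partT lo hi y0 y1 up) (x0 := lo) (x1 := hi)
      (y0 := if up then y1 else y0) (y1 := if up then y1 else y0)
      (fun c hc => ⟨hc.1.1, hc.1.2, hc.2.ge, hc.2.le⟩) hv
    exact (hyd _ hb2.2.2.1 hb2.2.2.2).2.1
  · intro v hv
    apply hout
    rintro ⟨j, q1, q2, q3⟩
    have hD := (ha.ends j q1 q2).hD v ((ha.traj j q1 q2).inner_sub q3)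
    have hb2 := reg_bounds hm (A := partT lo hi y0 y1 up) (x0 := lo) (x1 := hi)
      (y0 := if up then y1 else y0) (y1 := if up then y1 else y0)
      (fun c hc => ⟨hc.1.1, hc.1.2, hc.2.ge, hc.2.le⟩) hv
    have := (hyd _ hb2.2.2.1 hb2.2.2.2).2.1
    unfold Byd2 at this
    clear * - this hD
    split_ifs at this <;> omega
  · have e1 := hcol0 _ hm3 hm5
    have e2 := hmin (j0, b0) hJ0
    have e3 := hcol1 _ hp0 hn1'
    simp only at e1 e2 e3
    clear * - e1 e2 e3 a2 c1 hm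
    omega
  · have hp3 : ((j3, b3) : ℤ × Bool) ∈ I := (memI _ _).2 hj3
    have e1 := hcol0 _ hp3 (by push_cast at lo2; omega)
    have e3 := hcol1 _ hp3 hX3.2
    simp only at e1 e3
    clear * - e1 e3 a2 c1 hm
    omega
  · intro j q1 q2 b' q3 q4
    have hp : ((j, b') : ℤ × Bool) ∈ I := (memI _ _).2 ⟨q1, q2⟩
    have hl : lo ≤ X (j, b') := by
      by_contra hc
      push Not at hc
      obtain ⟨e1, e2⟩ := hXb (j, b')
      have e4 := hmul _ _ (show X (j, b') + 1 ≤ lo by omega)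
      have e7 : 2 * m * (X (j, b') + 1) = 2 * m * X (j, b') + 2 * m := by ring
      simp only at e2
      clear * - e4 e7 e2 q4 a1
      omega
    exact hmin (j, b') (by rw [hJ, mem_filter]; exact ⟨hp, q3, hl⟩)
  · intro v hv
    obtain ⟨-, k2, k3, k4, k5⟩ := reg_partU' hm Gg hv
    have r1 := Gg.r1
    have r2 := Gg.r2
    exact hin' v (by clear * - k2 r1; omega) (by clear * - k3 r2; omega) (hyU _ k4 k5).1
      (hyU _ k4 k5).2
  · intro v hv
    have hb2 := reg_bounds hm (A := partT lo hi y0 y1 up) (x0 := lo) (x1 := hi)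
      (y0 := if up then y1 else y0) (y1 := if up then y1 else y0)
      (fun c hc => ⟨hc.1.1, hc.1.2, hc.2.ge, hc.2.le⟩) hv
    obtain ⟨k2, k3, k4, k5⟩ := hb2
    have r1 := Gg.r1
    have r2 := Gg.r2
    exact hin' v (by clear * - k2 r1; omega) (by clear * - k3 r2; omega) (hyd _ k4 k5).2.2.1
      (hyd _ k4 k5).2.2.2

end

end Arm57
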