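import Pool.Agent.Helper8.CB.Bridge
import Pool.Agent.Helper69.TwoArm.Wrap
import Pool.Agent.Helper57.Arm.Iter

/-!
Rings of cells around exits, and vertical crossings of bands.
-/

set_option autoImplicit false

namespace Arm57

open Finset CB
open TA hiding Thru
open Pool.Agent.Helper69.RSW (P P_mono P_congr P_nonneg P_le_one P_or_le P_true P_false P_sum
  P_compl)

/-- the boundary cells of a rectangle of cells -/
noncomputable def ringC (x0 x1 y0 y1 : ℤ) : Finset (ℤ × ℤ) :=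
  (Icc (x0, y0) (x1, y1)).filter (fun c => c.1 = x0 ∨ c.1 = x1 ∨ c.2 = y0 ∨ c.2 = y1)

lemma mem_ringC {x0 x1 y0 y1 : ℤ} {c : ℤ × ℤ} : c ∈ ringC x0 x1 y0 y1 ↔
    (x0 ≤ c.1 ∧ c.1 ≤ x1 ∧ y0 ≤ c.2 ∧ c.2 ≤ y1) ∧ (c.1 = x0 ∨ c.1 = x1 ∨ c.2 = y0 ∨ c.2 = y1) := by
  unfold ringC
  rw [mem_filter, mem_Icc, Prod.le_def, Prod.le_def]
  simp only
  tauto

lemma ringC_card (x0 x1 y0 y1 : ℤ) :
    #(ringC x0 x1 y0 y1) ≤ (x1 + 1 - x0).toNat * (y1 + 1 - y0).toNat := by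
  unfold ringC
  refine (card_filter_le _ _).trans ?_
  have : Icc ((x0, y0) : ℤ × ℤ) (x1, y1) = Icc x0 x1 ×ˢ Icc y0 y1 := by
    ext c
    rw [mem_Icc, mem_product, mem_Icc, mem_Icc, Prod.le_def, Prod.le_def]
    tauto
  rw [this, card_product, Int.card_Icc, Int.card_Icc]

/-- the ring without the interior of its outer side -/
def partU (x0 x1 y0 y1 : ℤ) (up : Bool) : Set (ℤ × ℤ) :=
  {c | (x0 ≤ c.1 ∧ c.1 ≤ x1 ∧ y0 ≤ c.2 ∧ c.2 ≤ y1) ∧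
    (c.1 = x0 ∨ c.1 = x1 ∨ c.2 = if up then y0 else y1)}

/-- the outer side of the ring -/
def partT (x0 x1 y0 y1 : ℤ) (up : Bool) : Set (ℤ × ℤ) :=
  {c | (x0 ≤ c.1 ∧ c.1 ≤ x1) ∧ c.2 = if up then y1 else y0}

lemma mem_partU {x0 x1 y0 y1 : ℤ} {up : Bool} {a b : ℤ} : (a, b) ∈ partU x0 x1 y0 y1 up ↔
    (x0 ≤ a ∧ a ≤ x1 ∧ y0 ≤ b ∧ b ≤ y1) ∧ (a = x0 ∨ a = x1 ∨ b = if up then y0 else y1) := Iff.rfl

lemma mem_partT {x0 x1 y0 y1 : ℤ} {up : Bool} {a b : ℤ} : (a, b) ∈ partT x0 x1 y0 y1 up ↔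
    (x0 ≤ a ∧ a ≤ x1) ∧ b = if up then y1 else y0 := Iff.rfl

lemma partU_sub {x0 x1 y0 y1 : ℤ} {up : Bool} :
    partU x0 x1 y0 y1 up ⊆ (ringC x0 x1 y0 y1 : Set (ℤ × ℤ)) := by
  intro c hc
  rw [mem_coe, mem_ringC]
  obtain ⟨h1, h2⟩ := hc
  refine ⟨h1, ?_⟩
  cases up <;> simp only [Bool.false_eq_true, if_false, if_true] at h2 <;> tauto

lemma partT_sub {x0 x1 y0 y1 : ℤ} (hy : y0 ≤ y1) {up : Bool} :
    partT x0 x1 y0 y1 up ⊆ (ringC x0 x1 y0 y1 : Set (ℤ × ℤ)) := by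
  intro c hc
  rw [mem_coe, mem_ringC]
  obtain ⟨h1, h2⟩ := hc
  cases up <;> simp only [Bool.false_eq_true, if_false, if_true] at h2 <;> omega

/-- a net on the ring joins the two outer corners through both parts -/
theorem ring_conn {κ m : ℤ} (hκ : κ = 0 ∨ κ = 1) (hm : 1 ≤ m) {x0 x1 y0 y1 : ℤ} (hx : x0 ≤ x1)
    (hy : y0 ≤ y1) (up : Bool) {S : Set (ℤ × ℤ)} (h : Net κ m (ringC x0 x1 y0 y1 : Set (ℤ × ℤ)) S) :
    ∃ a b : ℤ × ℤ, Hub κ m (x0, if up then y1 else y0) S a ∧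
      Hub κ m (x1, if up then y1 else y0) S b ∧
      Conn (fun v => v ∈ S) (Reg m (partU x0 x1 y0 y1 up)) a b ∧
      Conn (fun v => v ∈ S) (Reg m (partT x0 x1 y0 y1 up)) a b := by
  have hU := h.mono (partU_sub (up := up))
  have hT := h.mono (partT_sub hy (up := up))
  have c0 : ((x0, if up then y1 else y0) : ℤ × ℤ) ∈ partU x0 x1 y0 y1 up := by
    rw [mem_partU]
    split_ifs <;> omega
  have c1 : ((x1, if up then y1 else y0) : ℤ × ℤ) ∈ partU x0 x1 y0 y1 up := by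
    rw [mem_partU]
    split_ifs <;> omega
  have c0' : ((x0, if up then y1 else y0) : ℤ × ℤ) ∈ partT x0 x1 y0 y1 up := by
    rw [mem_partT]
    omega
  obtain ⟨a, ha⟩ := exists_hub hm hU c0
  obtain ⟨b, hb⟩ := exists_hub hm hU c1
  refine ⟨a, b, ha, hb, net_conn' hκ hm hU c0 ?_ ha hb, net_conn' hκ hm hT c0' ?_ ha hb⟩
  · cases up
    · show CP _ (x0, y0) (x1, y0)
      refine (cp_vline (y := y0) (y' := y1) hy (fun z h1 h2 => ?_)).trans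
        ((cp_hline (y := y1) hx (fun z h1 h2 => ?_)).trans
        (cp_vline (x := x1) (y := y0) (y' := y1) hy (fun z h1 h2 => ?_)).symm)
      · exact mem_partU.2 ⟨by omega, Or.inl rfl⟩
      · exact mem_partU.2 ⟨by omega, Or.inr (Or.inr rfl)⟩
      · exact mem_partU.2 ⟨by omega, Or.inr (Or.inl rfl)⟩
    · show CP _ (x0, y1) (x1, y1)
      refine (cp_vline (y := y0) (y' := y1) hy (fun z h1 h2 => ?_)).symm.trans
        ((cp_hline (y := y0) hx (fun z h1 h2 => ?_)).trans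
        (cp_vline (x := x1) (y := y0) (y' := y1) hy (fun z h1 h2 => ?_)))
      · exact mem_partU.2 ⟨by omega, Or.inl rfl⟩
      · exact mem_partU.2 ⟨by omega, Or.inr (Or.inr rfl)⟩
      · exact mem_partU.2 ⟨by omega, Or.inr (Or.inl rfl)⟩
  · exact cp_hline hx (fun z h1 h2 => mem_partT.2 ⟨by omega, rfl⟩)

/-- nets inside the finite set `Λ` of tiles, in the plane -/
theorem plane_net_prob {Λ : Finset (ℤ × ℤ)} {m : ℤ} (hm : 1 ≤ m) {κ : ℤ} (hκ : κ = 0 ∨ κ = 1)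
    (A : Finset (ℤ × ℤ)) (hA : ∀ t ∈ Reg m (A : Set (ℤ × ℤ)), t ∈ Λ) {N : ℕ} (hN : #A ≤ N) :
    nc ^ N ≤ P Λ (fun S' => Net κ m (A : Set (ℤ × ℤ)) (S' : Set (ℤ × ℤ))) := by
  refine (pow_le_pow_of_le_one nc_pos.le nc_le_one hN).trans ?_
  refine (net_prob1 Λ (id : ℤ × ℤ → ℤ × ℤ) hm ?_ ?_ hκ (A : Set (ℤ × ℤ)) A (reps_finset _ _ _)
    hA).trans (P_mono (fun ω _ h => ?_))
  · intro t t' h
    rw [id, id] at h
    rw [h, sub_self]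
    exact dvd_zero _
  · intro t t' h _ _
    exact h
  · exact h

lemma reg_bounds {m : ℤ} (hm : 1 ≤ m) {A : Set (ℤ × ℤ)} {x0 x1 y0 y1 : ℤ}
    (hA : ∀ c ∈ A, x0 ≤ c.1 ∧ c.1 ≤ x1 ∧ y0 ≤ c.2 ∧ c.2 ≤ y1) {t : ℤ × ℤ} (ht : t ∈ Reg m A) :
    2 * m * x0 ≤ t.1 ∧ t.1 + 1 ≤ 2 * m * (x1 + 1) ∧ 2 * m * y0 ≤ t.2 ∧
      t.2 + 1 ≤ 2 * m * (y1 + 1) := by
  obtain ⟨c, hc, h1, h2, h3, h4⟩ := ht
  obtain ⟨g1, g2, g3, g4⟩ := hA c hc
  have hm2 : 0 ≤ 2 * m := by omega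
  have e1 := mul_le_mul_of_nonneg_left g1 hm2
  have e2 := mul_le_mul_of_nonneg_left (show c.1 + 1 ≤ x1 + 1 by omega) hm2
  have e3 := mul_le_mul_of_nonneg_left g3 hm2
  have e4 := mul_le_mul_of_nonneg_left (show c.2 + 1 ≤ y1 + 1 by omega) hm2
  omega

/-- the complement of an event implied by another -/
lemma P_le_one_sub {E : Type*} [DecidableEq E] {F : Finset E} {A B : Finset E → Prop} {q : ℝ}
    (hq : q ≤ P F B) (h : ∀ S ⊆ F, B S → ¬ A S) : P F A ≤ 1 - q := by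
  have h1 := P_compl F A
  have h2 : P F B ≤ P F (fun S => ¬ A S) := P_mono h
  linarith

end Arm57
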