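import Pool.Agent.Helper57.Arm.NearK

/-!
Exits through the short sides of long boxes are unlikely.
-/

set_option autoImplicit false

namespace Arm57

open Finset CB
open TA hiding Thru
open Pool.Agent.Helper69.RSW (P P_mono P_congr P_nonneg P_le_one P_or_le P_true P_false P_sum
  P_compl)

/-- an exploration of the `k` trajectories -/
structure Expl (k : ℤ) (T : Finset (ℤ × ℤ) → Finset (ℤ × ℤ) → Finset (ℤ × ℤ)) : Prop where
  stop : ∀ F D : Finset (ℤ × ℤ), Stop F (T D)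
  sub : ∀ D S : Finset (ℤ × ℤ), T D S ⊆ D
  mono : ∀ D D' : Finset (ℤ × ℤ), D ⊆ D' → ∀ S, T D S ⊆ T D' S
  dec : ∀ (F D : Finset (ℤ × ℤ)) (Q : (ℤ → ℕ → ℤ × ℤ) → (ℤ → ℕ) → (ℤ → ℕ) → Prop),
    Dec F (T D) (fun S => ∃ c n t, Arms (· ∈ S) k (D : Set (ℤ × ℤ)) c n t ∧ Q c n t)
  mem : ∀ (D S : Finset (ℤ × ℤ)) c n t, Arms (· ∈ S) k (D : Set (ℤ × ℤ)) c n t → ∀ v,
    (v ∈ T D S ↔ v ∈ visited k c n)

section
variable {k : ℤ} {c : ℤ → ℕ → ℤ × ℤ} {n t : ℤ → ℕ} {r r' : ℤ → Ray} {S S' S'' : Finset (ℤ × ℤ)}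
  {M : ℤ × ℤ → Prop} {D D' : Set (ℤ × ℤ)}

lemma arms_path (h : Arms M k D c n t) {j : ℤ} (h1 : 1 ≤ j) (h2 : j ≤ k) :
    Path M D (cD j) (cU j) (c j) (n j) (t j) :=
  ⟨h.traj j h1 h2, h.lt j h1 h2, h.at0 j h1 h2, h.at1 j h1 h2⟩

/-- the trajectories in a smaller domain are subpaths -/
lemma arms_sub (h : Arms M k D' c n t) (hD : D ⊆ D') : ∃ s e : ℤ → ℕ,
    (∀ j, 1 ≤ j → j ≤ k → s j ≤ t j ∧ t j < e j ∧ e j ≤ n j) ∧
    Arms M k D (fun j i => c j (s j + i)) (fun j => e j - s j) (fun j => t j - s j) := by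
  classical
  have key : ∀ j : ℤ, ∃ s e : ℕ, 1 ≤ j → j ≤ k → (s ≤ t j ∧ t j < e ∧ e ≤ n j ∧
      Path M D (cD j) (cU j) (fun i => c j (s + i)) (e - s) (t j - s)) := by
    intro j
    by_cases hj : 1 ≤ j ∧ j ≤ k
    · obtain ⟨s, e, h1, h2, h3, h4⟩ := (arms_path h hj.1 hj.2).sub hD
      exact ⟨s, e, fun _ _ => ⟨h1, h2, h3, h4⟩⟩
    · exact ⟨0, 0, fun h1 h2 => absurd ⟨h1, h2⟩ hj⟩
  choose s e hse using key
  refine ⟨s, e, fun j h1 h2 => ⟨(hse j h1 h2).1, (hse j h1 h2).2.1, (hse j h1 h2).2.2.1⟩, ?_⟩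
  refine ⟨fun j h1 h2 => (hse j h1 h2).2.2.2.1, fun j h1 h2 => (hse j h1 h2).2.2.2.2.1,
    fun j h1 h2 => (hse j h1 h2).2.2.2.2.2.1, fun j h1 h2 => (hse j h1 h2).2.2.2.2.2.2, ?_⟩
  intro i j hi1 hi2 hj1 hj2 hij a ha
  have := (hse j hj1 hj2).2.2.1
  exact h.cut i j hi1 hi2 hj1 hj2 hij (s j + a) (by omega)

lemma armEv_mono (hD : D ⊆ D') (h : ArmEv M k D') : ArmEv M k D := by
  obtain ⟨c, n, t, ha⟩ := h
  obtain ⟨s, e, -, h2⟩ := arms_sub ha hD
  exact ⟨_, _, _, h2⟩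

lemma arms_congr {M' : ℤ × ℤ → Prop} (h : Arms M k D c n t)
    (hM : ∀ v ∈ visited k c n, (M' v ↔ M v)) : Arms M' k D c n t :=
  ⟨fun j h1 h2 => (h.traj j h1 h2).congr (fun v hv => hM v ⟨j, h1, h2, hv⟩), h.lt, h.at0, h.at1,
    h.cut⟩

lemma visited_sub (h : Arms M k D c n t) : visited k c n ⊆ D := by
  rintro v ⟨j, h1, h2, hv⟩
  exact (h.traj j h1 h2).inner_sub hv

/-- the arm event depends only on the tiles of the domain -/
lemma armEv_dep (k : ℤ) (D : Finset (ℤ × ℤ)) :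
    Pool.Agent.Helper69.RSW.Dep D (fun S => ArmEv (· ∈ S) k (D : Set (ℤ × ℤ))) := by
  intro S
  constructor
  · rintro ⟨c, n, t, h⟩
    refine ⟨c, n, t, arms_congr h (fun v hv => ?_)⟩
    have := visited_sub h hv
    rw [mem_coe] at this
    simp [this]
  · rintro ⟨c, n, t, h⟩
    refine ⟨c, n, t, arms_congr h (fun v hv => ?_)⟩
    have := visited_sub h hv
    rw [mem_coe] at this
    simp [this]

/-- exits from two domains inside a third one -/
lemma exit_between {D1 D2 : Set (ℤ × ℤ)} {c : ℕ → ℤ × ℤ} {s1 e1 s2 e2 t : ℕ}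
    (h1 : Traj M D1 (fun i => c (s1 + i)) (e1 - s1)) (h2 : Traj M D2 (fun i => c (s2 + i)) (e2 - s2))
    (a1 : s1 ≤ t) (a2 : t < e1) (b1 : s2 ≤ t) (b2 : t < e2) :
    (c e1 ∉ D2 → c e2 = c e1 ∨ c e2 ∈ D1) ∧ (c s1 ∉ D2 → c s2 = c s1 ∨ c s2 ∈ D1) := by
  constructor
  · intro h
    have h3 : e2 ≤ e1 := by
      by_contra h4
      push Not at h4
      apply h
      have := h2.inn (e1 - s2) (by omega) (by omega)
      rwa [show s2 + (e1 - s2) = e1 by omega] at this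
    rcases h3.lt_or_eq with h4 | h4
    · right
      have := h1.inn (e2 - s1) (by omega) (by omega)
      rwa [show s1 + (e2 - s1) = e2 by omega] at this
    · left; rw [h4]
  · intro h
    have h3 : s1 ≤ s2 := by
      by_contra h4
      push Not at h4
      apply h
      have := h2.inn (s1 - s2) (by omega) (by omega)
      rwa [show s2 + (s1 - s2) = s1 by omega] at this
    rcases h3.lt_or_eq with h4 | h4
    · right
      have := h1.inn (s2 - s1) (by omega) (by omega)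
      rwa [show s1 + (s2 - s1) = s2 by omega] at this
    · left; rw [h4]

/-- some end leaves through a short side -/
def SdX (W : ℤ) (k : ℤ) (c : ℤ → ℕ → ℤ × ℤ) (n : ℤ → ℕ) : Prop :=
  ∃ j b, 1 ≤ j ∧ j ≤ k ∧ ((et c n j b).1 < -W ∨ W < (et c n j b).1)

/-- the event of a side exit from the box `bx m w h` -/
def SdE (k m w h : ℤ) (S : Finset (ℤ × ℤ)) : Prop :=
  ∃ c n t, Arms (· ∈ S) k (bx m w h : Set (ℤ × ℤ)) c n t ∧ SdX (2 * m * w - 1) k c n

lemma exit_rect {M : ℤ × ℤ → Prop} {W H : ℤ} (h : Arms M k (rect W H) c n t) {j : ℤ}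
    (h1 : 1 ≤ j) (h2 : j ≤ k) (hU : cU j ∈ rect W H) (b : Bool) :
    -W - 1 ≤ (et c n j b).1 ∧ (et c n j b).1 ≤ W + 1 ∧ -H - 1 ≤ (et c n j b).2 ∧
      (et c n j b).2 ≤ H + 1 := by
  have hp := arms_path h h1 h2
  have hn := hp.two_le (Or.inr hU)
  obtain ⟨u1, u2, u3, u4⟩ := hU
  cases b
  · have := exit_cases hp.1.rev hn
    simp only [Nat.sub_self] at this
    unfold et
    simp only [Bool.false_eq_true, if_false]
    omega
  · have := exit_cases hp.1 hn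
    unfold et
    simp only [if_true]
    omega

/-- no side exit: the arms with standard rays -/
lemma armsE_of {M : ℤ × ℤ → Prop} {W H : ℤ} (hH : 0 ≤ H) (h : Arms M k (rect W H) c n t)
    (hU : ∀ j, 1 ≤ j → j ≤ k → cU j ∈ rect W H) (hD : ∀ j, 1 ≤ j → j ≤ k → cD j ∈ rect W H)
    (hs : ¬ SdX W k c n) :
    ArmsE M k (rect W H) c n t H (fun j => ray0 (c j)) (fun j => rayN (c j) (n j)) := by
  refine ⟨h, fun j h1 h2 => ?_, hU, hD⟩
  have hp := arms_path h h1 h2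
  have hn := hp.two_le (Or.inr (hU j h1 h2))
  unfold SdX at hs
  push Not at hs
  have e0 := hs j false h1 h2
  have e1 := hs j true h1 h2
  unfold et at e0 e1
  simp only [Bool.false_eq_true, if_false, if_true] at e0 e1
  exact ends_of hH hp.1 hn e0 e1

/-- a side exit from a longer box is a side exit from the shorter one -/
lemma sdE_mono {m w w' h : ℤ} (hm : 1 ≤ m) (hw : w ≤ w') {S : Finset (ℤ × ℤ)}
    (hS : SdE k m w' h S) : SdE k m w h S := by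
  obtain ⟨c, n, t, ha, j, b, hj1, hj2, hx⟩ := hS
  have hsub : (bx m w h : Set (ℤ × ℤ)) ⊆ bx m w' h := by
    exact_mod_cast bx_mono (by omega) hw le_rfl
  obtain ⟨s, e, h1, h2⟩ := arms_sub ha hsub
  refine ⟨_, _, _, h2, j, b, hj1, hj2, ?_⟩
  obtain ⟨q1, q2, q3⟩ := h1 j hj1 hj2
  have hmul := mul_le_mul_of_nonneg_left hw (by omega : 0 ≤ 2 * m)
  have ht := h2.traj j hj1 hj2
  have hta := ha.traj j hj1 hj2
  have key : ∀ x : ℤ × ℤ, x ∈ (bx m w' h : Set (ℤ × ℤ)) → x ∉ (bx m w h : Set (ℤ × ℤ)) →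
      x.1 < -(2 * m * w - 1) ∨ 2 * m * w - 1 < x.1 := by
    intro x h3 h4
    rw [mem_coe, mem_bx] at h3 h4
    by_contra h5
    push Not at h5
    exact h4 ⟨h5.1, h5.2, h3.2.2⟩
  cases b
  · unfold et at hx ⊢
    simp only [Bool.false_eq_true, if_false, add_zero] at hx ⊢
    rcases Nat.eq_zero_or_pos (s j) with h3 | h3
    · rw [h3]; omega
    · exact key _ (hta.inn (s j) h3 (by omega)) ht.out0
  · unfold et at hx ⊢
    simp only [if_true] at hx ⊢
    have e1 : s j + (e j - s j) = e j := by omega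
    rw [e1]
    have h4 := ht.outn
    simp only [e1] at h4
    rcases q3.lt_or_eq with h3 | h3
    · exact key _ (hta.inn (e j) (by omega) h3) h4
    · rw [h3]; omega

/-- a vertical line of four cells -/
def vline (x : ℤ) : Finset (ℤ × ℤ) := {(x, -2), (x, -1), (x, 0), (x, 1)}

lemma mem_vline {x : ℤ} {a : ℤ × ℤ} : a ∈ vline x ↔ a.1 = x ∧ -2 ≤ a.2 ∧ a.2 ≤ 1 := by
  unfold vline
  simp only [mem_insert, mem_singleton]
  obtain ⟨a1, a2⟩ := a
  simp only [Prod.mk.injEq]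
  omega

lemma vline_card (x : ℤ) : #(vline x) ≤ 4 := by
  unfold vline
  exact card_le_four

lemma vline_conn {m : ℤ} (hm : 1 ≤ m) {x : ℤ} {S : Set (ℤ × ℤ)}
    (h : Net 0 m (vline x : Set (ℤ × ℤ)) S) : ∃ a b : ℤ × ℤ, (a.1 + a.2) % 2 = 0 ∧
      a.2 ≤ -(2 * m) - 1 ∧ 2 * m ≤ b.2 ∧
      Conn (fun v => v ∈ S) (Reg m (vline x : Set (ℤ × ℤ))) a b := by
  have h0 : ((0:ℤ) = 0 ∨ (0:ℤ) = 1) := Or.inl rfl
  have c0 : ((x, -2) : ℤ × ℤ) ∈ (vline x : Set (ℤ × ℤ)) := by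
    rw [mem_coe, mem_vline]; simp
  have c1 : ((x, 1) : ℤ × ℤ) ∈ (vline x : Set (ℤ × ℤ)) := by
    rw [mem_coe, mem_vline]; simp
  obtain ⟨a, ha⟩ := exists_hub hm h c0
  obtain ⟨b, hb⟩ := exists_hub hm h c1
  have ha' := ha.mem h0
  have hb' := hb.mem h0
  simp only at ha' hb'
  refine ⟨a, b, by omega, by linarith, by linarith, net_conn' h0 hm h c0 ?_ ha hb⟩
  exact cp_vline (by norm_num) (fun z h1 h2 => by rw [mem_coe, mem_vline]; exact ⟨rfl, h1, h2⟩)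

lemma mem_reg_vline {m : ℤ} (hm : 1 ≤ m) {x : ℤ} {t : ℤ × ℤ}
    (ht : t ∈ Reg m (vline x : Set (ℤ × ℤ))) : 2 * m * x ≤ t.1 ∧ t.1 + 1 ≤ 2 * m * (x + 1) ∧
      -(4 * m) ≤ t.2 ∧ t.2 + 1 ≤ 4 * m := by
  have := reg_bounds hm (x0 := x) (x1 := x) (y0 := -2) (y1 := 1) (fun c hc => by
    rw [mem_coe, mem_vline] at hc
    omega) ht
  refine ⟨this.1, this.2.1, ?_, ?_⟩
  · linarith [this.2.2.1]
  · linarith [this.2.2.2]

/-- **side step** -/
theorem side_step {T : Finset (ℤ × ℤ) → Finset (ℤ × ℤ) → Finset (ℤ × ℤ)} (E : Expl k T) {m s : ℤ}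
    (hm : 1 ≤ m) (hs : 0 ≤ s) (hk : 1 ≤ k) (hkm : k + 2 ≤ m) {Λ : Finset (ℤ × ℤ)}
    (hΛ : bx m (2 * s + 3) 3 ⊆ Λ) (S : Finset (ℤ × ℤ)) :
    P Λ (fun S' => SdE k m (2 * s + 3) 1 (mix (T (bx m (2 * s + 1) 1) S) S S')) ≤ 1 - nc ^ 8 := by
  classical
  -- both lines
  have e1 : 2 * m * (2 * s + 1) = 4 * m * s + 2 * m := by ring
  have e2 : 2 * m * (2 * s + 3) = 4 * m * s + 6 * m := by ring
  have e3 : 2 * m * (2 * s + 1 + 1) = 4 * m * s + 4 * m := by ring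
  have e4 : 2 * m * (-(2 * s + 2)) = -(4 * m * s) - 4 * m := by ring
  have e5 : 2 * m * (-(2 * s + 2) + 1) = -(4 * m * s) - 2 * m := by ring
  have hms : 0 ≤ 4 * m * s := by positivity
  have hR1 : ∀ v ∈ Reg m (vline (2 * s + 1) : Set (ℤ × ℤ)), v ∈ Λ ∧ v ∉ bx m (2 * s + 1) 1 := by
    intro v hv
    have := mem_reg_vline hm hv
    rw [e1, e3] at this
    constructor
    · apply hΛ
      rw [mem_bx, e2]
      omega
    · rw [mem_bx, e1]
      omega
  have hR2 : ∀ v ∈ Reg m (vline (-(2 * s + 2)) : Set (ℤ × ℤ)), v ∈ Λ ∧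
      v ∉ bx m (2 * s + 1) 1 := by
    intro v hv
    have := mem_reg_vline hm hv
    rw [e4, e5] at this
    constructor
    · apply hΛ
      rw [mem_bx, e2]
      omega
    · rw [mem_bx, e1]
      omega
  have hprob : nc ^ 8 ≤ P Λ (fun S' => Net 0 m ((vline (2 * s + 1) ∪ vline (-(2 * s + 2)) :
      Finset (ℤ × ℤ)) : Set (ℤ × ℤ)) (S' : Set (ℤ × ℤ))) := by
    refine plane_net_prob hm (Or.inl rfl) _ ?_ ?_
    · rintro v ⟨cc, hc, hcc⟩
      rw [mem_coe, mem_union] at hc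
      rcases hc with hc | hc
      · exact (hR1 v ⟨cc, hc, hcc⟩).1
      · exact (hR2 v ⟨cc, hc, hcc⟩).1
    · refine (card_union_le _ _).trans ?_
      have := vline_card (2 * s + 1)
      have := vline_card (-(2 * s + 2))
      omega
  refine P_le_one_sub hprob ?_
  rintro S' - hnet ⟨c, n, t, ha, j, b, hj1, hj2, hx⟩
  obtain ⟨a1, b1, p1, p2, p3, p4⟩ := vline_conn hm (hnet.mono (A := (vline (2 * s + 1) :
    Set (ℤ × ℤ))) (by intro x hx; rw [mem_coe, mem_union]; exact Or.inl hx))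
  obtain ⟨a2, b2, q1, q2, q3, q4⟩ := vline_conn hm (hnet.mono (A := (vline (-(2 * s + 2)) :
    Set (ℤ × ℤ))) (by intro x hx; rw [mem_coe, mem_union]; exact Or.inr hx))
  -- the crossings are present in the mixed configuration
  have hmix : ∀ v, v ∉ bx m (2 * s + 1) 1 →
      (v ∈ mix (T (bx m (2 * s + 1) 1) S) S S' ↔ v ∈ (S' : Set (ℤ × ℤ))) := by
    intro v hv
    rw [mem_coe]
    exact mix_off (fun h => hv (E.sub _ _ h))
  have p5 := p4.congr (M' := (· ∈ mix (T (bx m (2 * s + 1) 1) S) S S'))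
    (fun v hv => hmix v (hR1 v hv).2)
  have q5 := q4.congr (M' := (· ∈ mix (T (bx m (2 * s + 1) 1) S) S S'))
    (fun v hv => hmix v (hR2 v hv).2)
  rw [coe_bx] at ha
  have hcU : cU j ∈ rect (2 * m * (2 * s + 3) - 1) (2 * m * 1 - 1) := by
    show _ ∧ _ ∧ _ ∧ _
    unfold cU
    rw [e2]
    simp only
    omega
  have hcD : cD j ∈ rect (2 * m * (2 * s + 3) - 1) (2 * m * 1 - 1) := by
    show _ ∧ _ ∧ _ ∧ _
    unfold cD
    rw [e2]
    simp only
    omega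
  have hp := arms_path ha hj1 hj2
  have s1 := (side_block hp hcD hcU (x1 := 2 * m * (2 * s + 1)) (x2 := 2 * m * (2 * s + 1 + 1) - 1)
    (R := Reg m (vline (2 * s + 1) : Set (ℤ × ℤ))) (fun v hv => by
      have := mem_reg_vline hm hv
      omega) p5 p1 (by omega) (by omega)).1 (by rw [e2, e3]; omega)
      (by rw [e1]; unfold cD; simp only; omega) (by rw [e1]; unfold cU; simp only; omega)
  have s2 := (side_block hp hcD hcU (x1 := 2 * m * (-(2 * s + 2)))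
    (x2 := 2 * m * (-(2 * s + 2) + 1) - 1)
    (R := Reg m (vline (-(2 * s + 2)) : Set (ℤ × ℤ))) (fun v hv => by
      have := mem_reg_vline hm hv
      omega) q5 q1 (by omega) (by omega)).2 (by rw [e2, e4]; omega)
      (by rw [e5]; unfold cD; simp only; omega) (by rw [e5]; unfold cU; simp only; omega)
  have ex := exit_rect ha hj1 hj2 hcU b
  cases b
  · unfold et at hx ex
    simp only [Bool.false_eq_true, if_false] at hx ex
    have := s1.2
    have := s2.2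
    omega
  · unfold et at hx ex
    simp only [if_true] at hx ex
    have := s1.1
    have := s2.1
    omega

end

end Arm57
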