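import Pool.Agent.Helper69.RSW.Prob

/-!
Stopping sets of finite percolation: conditioning on the explored set by resampling the rest.
-/

set_option autoImplicit false
set_option linter.unusedSectionVars false

namespace Arm57

open Finset
open Pool.Agent.Helper69.RSW (P P_mono P_congr P_nonneg P_le_one P_or_le P_true P_false P_sum)

variable {E : Type*} [DecidableEq E]

/-- the configuration that agrees with `S` on `T` and with `S'` off `T` -/
def mix (T S S' : Finset E) : Finset E := (S ∩ T) ∪ (S' \ T)

lemma mix_inter (T S S' : Finset E) : mix T S S' ∩ T = S ∩ T := by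
  ext e
  unfold mix
  simp only [mem_inter, mem_union, mem_sdiff]
  tauto

lemma mix_sdiff (T S S' : Finset E) : mix T S S' \ T = S' \ T := by
  ext e
  unfold mix
  simp only [mem_inter, mem_union, mem_sdiff]
  tauto

lemma mix_subset {F T S S' : Finset E} (h : S ⊆ F) (h' : S' ⊆ F) : mix T S S' ⊆ F :=
  union_subset (inter_subset_left.trans h) (sdiff_subset.trans h')

lemma mix_mix (T S S' : Finset E) : mix T (mix T S S') (mix T S' S) = S := by
  ext e
  unfold mix
  simp only [mem_inter, mem_union, mem_sdiff]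
  tauto

/-- `T` is a stopping set on the configurations in `F` -/
def Stop (F : Finset E) (T : Finset E → Finset E) : Prop :=
  ∀ S ⊆ F, ∀ S' ⊆ F, S' ∩ T S = S ∩ T S → T S' = T S

/-- the event `A` is decided by the stopping set `T` -/
def Dec (F : Finset E) (T : Finset E → Finset E) (A : Finset E → Prop) : Prop :=
  ∀ S ⊆ F, ∀ S' ⊆ F, S' ∩ T S = S ∩ T S → (A S' ↔ A S)

lemma Dec.and {F : Finset E} {T : Finset E → Finset E} {A B : Finset E → Prop} (hA : Dec F T A)
    (hB : Dec F T B) : Dec F T (fun S => A S ∧ B S) :=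
  fun S hS S' hS' h => and_congr (hA S hS S' hS' h) (hB S hS S' hS' h)

lemma Dec.or {F : Finset E} {T : Finset E → Finset E} {A B : Finset E → Prop} (hA : Dec F T A)
    (hB : Dec F T B) : Dec F T (fun S => A S ∨ B S) :=
  fun S hS S' hS' h => or_congr (hA S hS S' hS' h) (hB S hS S' hS' h)

lemma Dec.not {F : Finset E} {T : Finset E → Finset E} {A : Finset E → Prop} (hA : Dec F T A) :
    Dec F T (fun S => ¬ A S) := fun S hS S' hS' h => not_congr (hA S hS S' hS' h)

lemma Dec.mono {F : Finset E} {T U : Finset E → Finset E} {A : Finset E → Prop} (hA : Dec F T A)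
    (hTU : ∀ S ⊆ F, T S ⊆ U S) : Dec F U A := by
  intro S hS S' hS' h
  apply hA S hS S' hS'
  have h1 := congrArg (fun X => X ∩ T S) h
  simp only [inter_assoc, inter_eq_right.2 (hTU S hS)] at h1
  exact h1

open Classical in
/-- the resampling identity -/
lemma card_resample {F : Finset E} {T : Finset E → Finset E} (hT : Stop F T)
    {A : Finset E → Prop} (hA : Dec F T A) (B : Finset E → Prop) :
    ∑ S ∈ F.powerset.filter A, #(F.powerset.filter (fun S' => B (mix (T S) S S'))) =
      #(F.powerset.filter (fun S => A S ∧ B S)) * 2 ^ #F := by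
  have e1 : ∑ S ∈ F.powerset.filter A, #(F.powerset.filter (fun S' => B (mix (T S) S S'))) =
      #((F.powerset.filter A ×ˢ F.powerset).filter (fun p => B (mix (T p.1) p.1 p.2))) := by
    rw [card_eq_sum_card_fiberwise (f := Prod.fst) (t := F.powerset.filter A)]
    · apply sum_congr rfl
      intro S hS
      apply card_nbij' (i := fun S' => (S, S')) (j := Prod.snd)
      · intro S' hS'
        simp only [coe_filter, Set.mem_ofPred_eq, mem_filter, mem_product] at hS' ⊢
        exact ⟨⟨⟨mem_filter.1 hS, hS'.1⟩, hS'.2⟩, trivial⟩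
      · rintro ⟨S1, S'⟩ h
        simp only [coe_filter, Set.mem_ofPred_eq, mem_filter, mem_product] at h ⊢
        obtain ⟨⟨⟨h1, h2⟩, h3⟩, rfl⟩ := h
        exact ⟨h2, h3⟩
      · intro S' _
        rfl
      · rintro ⟨S1, S'⟩ h
        simp only [coe_filter, Set.mem_ofPred_eq, mem_filter, mem_product] at h
        obtain ⟨_, rfl⟩ := h
        rfl
    · rintro ⟨S, S'⟩ h
      simp only [coe_filter, Set.mem_ofPred_eq, mem_product] at h
      simp only [coe_filter, Set.mem_ofPred_eq]
      exact mem_filter.1 h.1.1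
  have e2 : #(F.powerset.filter (fun S => A S ∧ B S)) * 2 ^ #F =
      #(F.powerset.filter (fun S => A S ∧ B S) ×ˢ F.powerset) := by
    rw [card_product, card_powerset]
  rw [e1, e2]
  apply card_nbij' (i := fun p : Finset E × Finset E => (mix (T p.1) p.1 p.2, mix (T p.1) p.2 p.1))
    (j := fun p : Finset E × Finset E => (mix (T p.1) p.1 p.2, mix (T p.1) p.2 p.1))
  · rintro ⟨S, S'⟩ h
    simp only [coe_filter, Set.mem_ofPred_eq, mem_product, mem_filter, mem_powerset,
      coe_product, Set.mem_prod, mem_coe] at h ⊢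
    obtain ⟨⟨⟨h1, h2⟩, h3⟩, h4⟩ := h
    have hU : mix (T S) S S' ⊆ F := mix_subset h1 h3
    refine ⟨⟨hU, (hA S h1 _ hU (mix_inter _ _ _)).2 h2, h4⟩, mix_subset h3 h1⟩
  · rintro ⟨S, S'⟩ h
    simp only [coe_filter, Set.mem_ofPred_eq, mem_product, mem_filter, mem_powerset,
      coe_product, Set.mem_prod, mem_coe] at h ⊢
    obtain ⟨⟨h1, h2, h3⟩, h4⟩ := h
    have hU : mix (T S) S S' ⊆ F := mix_subset h1 h4
    have hTU : T (mix (T S) S S') = T S := hT S h1 _ hU (mix_inter _ _ _)
    refine ⟨⟨⟨hU, (hA S h1 _ hU (mix_inter _ _ _)).2 h2⟩, mix_subset h4 h1⟩, ?_⟩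
    rw [hTU, mix_mix]
    exact h3
  · rintro ⟨S, S'⟩ h
    simp only [coe_filter, Set.mem_ofPred_eq, mem_product, mem_filter, mem_powerset] at h
    obtain ⟨⟨⟨h1, h2⟩, h3⟩, h4⟩ := h
    have hTU : T (mix (T S) S S') = T S := hT S h1 _ (mix_subset h1 h3) (mix_inter _ _ _)
    simp only [hTU, mix_mix]
  · rintro ⟨S, S'⟩ h
    simp only [coe_filter, Set.mem_ofPred_eq, mem_powerset,
      coe_product, Set.mem_prod, mem_coe] at h
    obtain ⟨⟨h1, h2, h3⟩, h4⟩ := h
    have hTU : T (mix (T S) S S') = T S := hT S h1 _ (mix_subset h1 h4) (mix_inter _ _ _)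
    simp only [hTU, mix_mix]

/-- upper bound by resampling off the stopping set -/
lemma resample_le {F : Finset E} {T : Finset E → Finset E} (hT : Stop F T)
    {A : Finset E → Prop} (hA : Dec F T A) {B : Finset E → Prop} {ε : ℝ}
    (h : ∀ S ⊆ F, A S → P F (fun S' => B (mix (T S) S S')) ≤ ε) :
    P F (fun S => A S ∧ B S) ≤ ε * P F A := by
  classical
  have h1 := card_resample hT hA B
  have h2 : (0:ℝ) < 2 ^ #F := by positivity
  unfold P
  rw [mul_div_assoc', div_le_div_iff_of_pos_right h2]
  have h3 : (#(F.powerset.filter (fun S => A S ∧ B S)) : ℝ) * 2 ^ #F ≤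
      (ε * #(F.powerset.filter A)) * 2 ^ #F := by
    calc (#(F.powerset.filter (fun S => A S ∧ B S)) : ℝ) * 2 ^ #F
        = ∑ S ∈ F.powerset.filter A, (#(F.powerset.filter (fun S' => B (mix (T S) S S'))) : ℝ) := by
          exact_mod_cast h1.symm
      _ ≤ ∑ S ∈ F.powerset.filter A, ε * 2 ^ #F := by
          apply sum_le_sum
          intro S hS
          rw [mem_filter, mem_powerset] at hS
          have h4 := h S hS.1 hS.2
          unfold P at h4
          rw [div_le_iff₀ h2] at h4
          convert h4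
      _ = _ := by
          rw [sum_const, nsmul_eq_mul]
          ring
  have h5 := le_of_mul_le_mul_right h3 h2
  convert h5

/-- lower bound by resampling off the stopping set -/
lemma resample_ge {F : Finset E} {T : Finset E → Finset E} (hT : Stop F T)
    {A : Finset E → Prop} (hA : Dec F T A) {B : Finset E → Prop} {c : ℝ}
    (h : ∀ S ⊆ F, A S → c ≤ P F (fun S' => B (mix (T S) S S'))) :
    c * P F A ≤ P F (fun S => A S ∧ B S) := by
  classical
  have h1 := card_resample hT hA B
  have h2 : (0:ℝ) < 2 ^ #F := by positivity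
  unfold P
  rw [mul_div_assoc', div_le_div_iff_of_pos_right h2]
  have h3 : (c * #(F.powerset.filter A)) * 2 ^ #F ≤
      (#(F.powerset.filter (fun S => A S ∧ B S)) : ℝ) * 2 ^ #F := by
    calc (c * #(F.powerset.filter A)) * 2 ^ #F
        = ∑ S ∈ F.powerset.filter A, c * 2 ^ #F := by
          rw [sum_const, nsmul_eq_mul]
          ring
      _ ≤ ∑ S ∈ F.powerset.filter A, (#(F.powerset.filter (fun S' => B (mix (T S) S S'))) : ℝ) := by
          apply sum_le_sum
          intro S hS
          rw [mem_filter, mem_powerset] at hS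
          have h4 := h S hS.1 hS.2
          unfold P at h4
          rw [le_div_iff₀ h2] at h4
          convert h4
      _ = _ := by exact_mod_cast h1
  have h5 := le_of_mul_le_mul_right h3 h2
  convert h5

end Arm57
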